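import Pool.Agent.Q88.NoHeat.Spec

/-!
The ping-pong estimate for the group of vectors over the field with three elements.
-/

open scoped InnerProductSpace ComplexConjugate

set_option linter.unusedSectionVars false

namespace Q88.NoHeat

noncomputable section

/-- Vectors of length `n + 1` over the field with three elements. -/
abbrev Vec (n : ℕ) := Fin (n + 1) → ZMod 3

/-- Pairs of vectors. -/
abbrev VV (n : ℕ) := Vec n × Vec n

/-- The shift up. -/
def xm {n : ℕ} (f : Vec n) : Vec n := fun k => if h : 0 < k.1 then f ⟨k.1 - 1, by omega⟩ else 0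

/-- The shift down. -/
def sd {n : ℕ} (a : Vec n) : Vec n := fun k => if h : k.1 + 1 < n + 1 then a ⟨k.1 + 1, h⟩ else 0

theorem xm_add {n : ℕ} (f g : Vec n) : xm (f + g) = xm f + xm g := by
  funext k
  show (if h : 0 < k.1 then (f + g) ⟨k.1 - 1, by omega⟩ else 0) =
    (if h : 0 < k.1 then f ⟨k.1 - 1, by omega⟩ else 0) +
    (if h : 0 < k.1 then g ⟨k.1 - 1, by omega⟩ else 0)
  by_cases h : 0 < k.1
  · rw [dif_pos h, dif_pos h, dif_pos h]
    rfl
  · rw [dif_neg h, dif_neg h, dif_neg h, add_zero]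

theorem sd_add {n : ℕ} (f g : Vec n) : sd (f + g) = sd f + sd g := by
  funext k
  unfold sd
  by_cases h : k.1 + 1 < n + 1
  · simp only [h, dif_pos, Pi.add_apply]
  · simp only [h, dif_neg, Pi.add_apply, not_false_iff, add_zero]

theorem dot_xm {n : ℕ} (a f : Vec n) : a ⬝ᵥ xm f = sd a ⬝ᵥ f := by
  unfold dotProduct
  rw [Fin.sum_univ_succ, Fin.sum_univ_castSucc]
  have h1 : a 0 * xm f 0 = 0 := by simp [xm]
  have h2 : sd a (Fin.last n) * f (Fin.last n) = 0 := by simp [sd]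
  rw [h1, h2, zero_add, add_zero]
  apply Finset.sum_congr rfl
  intro k _
  have h3 : xm f k.succ = f k.castSucc := by
    simp [xm]
    rfl
  have h4 : sd a k.castSucc = a k.succ := by
    have : k.castSucc.1 + 1 < n + 1 := by
      have := k.2
      simp
    simp only [sd, this, dif_pos]
    rfl
  rw [h3, h4]

/-- The pairing of a pair of vectors with a pair of vectors. -/
def dp {n : ℕ} (c v : VV n) : ZMod 3 := c.1 ⬝ᵥ v.1 + c.2 ⬝ᵥ v.2

theorem dp_add {n : ℕ} (c v w : VV n) : dp c (v + w) = dp c v + dp c w := by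
  unfold dp
  rw [Prod.fst_add, Prod.snd_add, dotProduct_add, dotProduct_add]
  ring

theorem dp_comm {n : ℕ} (c v : VV n) : dp c v = dp v c := by
  unfold dp
  rw [dotProduct_comm, dotProduct_comm c.2]

theorem dp_sub {n : ℕ} (c v w : VV n) : dp c (v - w) = dp c v - dp c w := by
  have := dp_add c (v - w) w
  rw [sub_add_cancel] at this
  rw [this]
  ring

theorem dp_left {n : ℕ} (c : VV n) (k : Fin (n + 1)) : dp c (Pi.single k 1, 0) = c.1 k := by
  unfold dp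
  simp

theorem dp_right {n : ℕ} (c : VV n) (k : Fin (n + 1)) : dp c (0, Pi.single k 1) = c.2 k := by
  unfold dp
  simp

theorem dp_sep {n : ℕ} (c c' : VV n) (h : c ≠ c') : ∃ v, dp c v ≠ dp c' v := by
  by_contra h1
  push Not at h1
  apply h
  apply Prod.ext
  · funext k
    have := h1 (Pi.single k 1, 0)
    rwa [dp_left, dp_left] at this
  · funext k
    have := h1 (0, Pi.single k 1)
    rwa [dp_right, dp_right] at this

/-- The standard character. -/
def om (x : ZMod 3) : ℂ := ZMod.stdAddChar x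

theorem om_add (x y : ZMod 3) : om (x + y) = om x * om y := AddChar.map_add_eq_mul _ _ _

theorem om_norm (x : ZMod 3) : ‖om x‖ = 1 := by
  unfold om
  exact AddChar.norm_apply _ _

theorem om_inj {x y : ZMod 3} (h : om x = om y) : x = y := ZMod.injective_stdAddChar h

theorem om_zero : om 0 = 1 := AddChar.map_zero_eq_one _

theorem three_mul (x : ZMod 3) : x + x + x = 0 := by
  revert x
  decide

theorem om_sub_one (x : ZMod 3) (hx : x ≠ 0) : 1 ≤ ‖om x - 1‖ := by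
  have h1 : om x ≠ 1 := by
    intro h
    apply hx
    apply om_inj
    rw [h, om_zero]
  have h2 : om x * om x * om x = 1 := by
    rw [← om_add, ← om_add, ← om_zero, three_mul]
  have h3 : om x * om x + om x + 1 = 0 := by
    have h4 : (om x - 1) * (om x * om x + om x + 1) = 0 := by
      linear_combination h2
    rcases mul_eq_zero.1 h4 with h | h
    · exact absurd (sub_eq_zero.1 h) h1
    · exact h
  have h5 : (om x - 1) * (om x - 1) = -3 * om x := by
    linear_combination h3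
  have h6 : ‖om x - 1‖ * ‖om x - 1‖ = 3 := by
    rw [← norm_mul, h5, norm_mul, om_norm, norm_neg]
    simp
  nlinarith [norm_nonneg (om x - 1)]

/-- The perfect pairing. -/
def pairing (n : ℕ) : Pairing (VV n) (VV n) where
  e c v := om (dp c v)
  add c v w := by rw [dp_add, om_add]
  nrm c v := om_norm _
  sep c c' h := by
    obtain ⟨v, hv⟩ := dp_sep c c' h
    exact ⟨v, fun h' => hv (om_inj h')⟩
  tot v hv := by
    obtain ⟨w, hw⟩ := dp_sep v 0 hv
    have h0 : dp (0 : VV n) w = 0 := by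
      unfold dp
      simp
    rw [h0, dp_comm] at hw
    have h4 : om (dp w v) * ∑ c : VV n, om (dp c v) = ∑ c : VV n, om (dp c v) := by
      rw [Finset.mul_sum]
      refine Fintype.sum_equiv (Equiv.addRight w) _ _ fun c => ?_
      show om (dp w v) * om (dp c v) = om (dp (c + w) v)
      rw [← om_add, dp_comm (c + w), dp_add, dp_comm v w, dp_comm v c, add_comm]
    have h5 : (om (dp w v) - 1) * ∑ c : VV n, om (dp c v) = 0 := by
      rw [sub_mul, h4, one_mul, sub_self]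
    rcases mul_eq_zero.1 h5 with h | h
    · exfalso
      apply hw
      apply om_inj
      rw [sub_eq_zero.1 h, om_zero]
    · exact h
  crd := rfl
  c0 := 0
  triv v := by
    have h0 : dp (0 : VV n) v = 0 := by
      unfold dp
      simp
    rw [h0, om_zero]

/-- The first transvection. -/
def th1 (n : ℕ) : VV n ≃+ VV n where
  toFun v := (v.1 + xm v.2, v.2)
  invFun v := (v.1 - xm v.2, v.2)
  left_inv v := by simp
  right_inv v := by simp
  map_add' v w := by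
    apply Prod.ext
    · show v.1 + w.1 + xm (v.2 + w.2) = v.1 + xm v.2 + (w.1 + xm w.2)
      rw [xm_add]
      abel
    · rfl

/-- The second transvection. -/
def th2 (n : ℕ) : VV n ≃+ VV n where
  toFun v := (v.1, v.2 + xm v.1)
  invFun v := (v.1, v.2 - xm v.1)
  left_inv v := by simp
  right_inv v := by simp
  map_add' v w := by
    apply Prod.ext
    · rfl
    · show v.2 + w.2 + xm (v.1 + w.1) = v.2 + xm v.1 + (w.2 + xm w.1)
      rw [xm_add]
      abel

/-- The action of the first transvection on characters. -/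
def T1 (n : ℕ) : VV n ≃ VV n where
  toFun c := (c.1, c.2 - sd c.1)
  invFun c := (c.1, c.2 + sd c.1)
  left_inv c := by simp
  right_inv c := by simp

/-- The action of the second transvection on characters. -/
def T2 (n : ℕ) : VV n ≃ VV n where
  toFun c := (c.1 - sd c.2, c.2)
  invFun c := (c.1 + sd c.2, c.2)
  left_inv c := by simp
  right_inv c := by simp

theorem T1_th1 (n : ℕ) (c v : VV n) : dp (T1 n c) (th1 n v) = dp c v := by
  show c.1 ⬝ᵥ (v.1 + xm v.2) + (c.2 - sd c.1) ⬝ᵥ v.2 = c.1 ⬝ᵥ v.1 + c.2 ⬝ᵥ v.2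
  rw [dotProduct_add, sub_dotProduct, dot_xm]
  ring

theorem T2_th2 (n : ℕ) (c v : VV n) : dp (T2 n c) (th2 n v) = dp c v := by
  show (c.1 - sd c.2) ⬝ᵥ v.1 + c.2 ⬝ᵥ (v.2 + xm v.1) = c.1 ⬝ᵥ v.1 + c.2 ⬝ᵥ v.2
  rw [dotProduct_add, sub_dotProduct, dot_xm]
  ring

/-- the first ping-pong set -/
def Q1 (n : ℕ) (c : VV n) : Prop := ∃ k, c.1 k ≠ 0 ∧ ∀ j < k, c.1 j = 0 ∧ c.2 j = 0

/-- the second ping-pong set -/
def Q2 (n : ℕ) (c : VV n) : Prop := ∃ k, c.2 k ≠ 0 ∧ c.1 k = 0 ∧ ∀ j < k, c.1 j = 0 ∧ c.2 j = 0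

/-- characters not trivial at index zero -/
def DD (n : ℕ) (c : VV n) : Prop := c.1 0 ≠ 0 ∨ c.2 0 ≠ 0

theorem Q12_disj (n : ℕ) (c : VV n) (h1 : Q1 n c) (h2 : Q2 n c) : False := by
  obtain ⟨k, hk, hk'⟩ := h1
  obtain ⟨l, hl, hl0, hl'⟩ := h2
  rcases lt_trichotomy k l with h | h | h
  · exact hk (hl' k h).1
  · subst h
    exact hk hl0
  · exact hl (hk' l h).2

theorem Q12_all (n : ℕ) (c : VV n) (hc : c ≠ 0) : Q1 n c ∨ Q2 n c := by
  classical
  have h1 : ∃ k : Fin (n + 1), c.1 k ≠ 0 ∨ c.2 k ≠ 0 := by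
    by_contra h
    push Not at h
    apply hc
    apply Prod.ext
    · funext k
      exact (h k).1
    · funext k
      exact (h k).2
  let S : Finset (Fin (n + 1)) := Finset.univ.filter fun k => c.1 k ≠ 0 ∨ c.2 k ≠ 0
  have hS : S.Nonempty := by
    obtain ⟨k, hk⟩ := h1
    exact ⟨k, by simp [S]; simpa using hk⟩
  let m := S.min' hS
  have hm : m ∈ S := S.min'_mem hS
  have hm' : c.1 m ≠ 0 ∨ c.2 m ≠ 0 := (Finset.mem_filter.1 hm).2
  have hlt : ∀ j < m, c.1 j = 0 ∧ c.2 j = 0 := by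
    intro j hj
    by_contra h
    have : j ∈ S := by
      apply Finset.mem_filter.2
      refine ⟨Finset.mem_univ _, ?_⟩
      by_contra h'
      push Not at h'
      exact h h'
    exact absurd (S.min'_le j this) (not_le.2 hj)
  by_cases h : c.1 m = 0
  · right
    refine ⟨m, ?_, h, hlt⟩
    rcases hm' with h' | h'
    · exact absurd h h'
    · exact h'
  · left
    exact ⟨m, h, hlt⟩

theorem sd_apply {n : ℕ} (a : Vec n) (k : Fin (n + 1)) (h : k.1 + 1 < n + 1) :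
    sd a k = a ⟨k.1 + 1, h⟩ := by
  simp only [sd, h, dif_pos]

/-- The ping-pong lemma, general form: if `a` has order `k > 0` and `b` is zero before `k`, then
`b + s • sd a` has order `k - 1`. -/
theorem order_lemma {n : ℕ} (a b : Vec n) (k : Fin (n + 1)) (hk : a k ≠ 0)
    (h0 : k ≠ 0) (ha : ∀ j < k, a j = 0) (hb : ∀ j < k, b j = 0) (s : ZMod 3) (hs : s ≠ 0) :
    ∃ l < k, (b + s • sd a) l ≠ 0 ∧ ∀ j < l, (b + s • sd a) j = 0 := by
  have hk0 : 0 < k.1 := by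
    by_contra h
    apply h0
    apply Fin.ext
    show k.1 = 0
    omega
  have hl : (⟨k.1 - 1, by omega⟩ : Fin (n + 1)) < k := by
    rw [Fin.lt_def]
    show k.1 - 1 < k.1
    omega
  refine ⟨⟨k.1 - 1, by omega⟩, hl, ?_, ?_⟩
  · show b _ + s * sd a _ ≠ 0
    rw [hb _ hl, sd_apply a _ (show k.1 - 1 + 1 < n + 1 by omega), zero_add]
    have : (⟨(⟨k.1 - 1, by omega⟩ : Fin (n + 1)).1 + 1, by
        show k.1 - 1 + 1 < n + 1
        omega⟩ : Fin (n + 1)) = k := by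
      apply Fin.ext
      show k.1 - 1 + 1 = k.1
      omega
    rw [this]
    exact mul_ne_zero hs hk
  · intro j hj
    have hj' : j.1 < k.1 - 1 := hj
    show b j + s * sd a j = 0
    rw [hb j (by rw [Fin.lt_def]; omega), sd_apply a j (by omega), ha _ (by
      rw [Fin.lt_def]
      show j.1 + 1 < k.1
      omega)]
    ring

theorem neg_one_ne : (-1 : ZMod 3) ≠ 0 := by decide

theorem T1_Q {n : ℕ} (c : VV n) (h : Q1 n c) (hD : ¬ DD n c) (s : ZMod 3) (hs : s ≠ 0) :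
    Q2 n (c.1, c.2 + s • sd c.1) := by
  obtain ⟨k, hk, hk'⟩ := h
  have h0 : k ≠ 0 := by
    rintro rfl
    exact hD (Or.inl hk)
  obtain ⟨l, hl, h1, h2⟩ := order_lemma c.1 c.2 k hk h0 (fun j hj => (hk' j hj).1)
    (fun j hj => (hk' j hj).2) s hs
  exact ⟨l, h1, (hk' l hl).1, fun j hj => ⟨(hk' j (hj.trans hl)).1, h2 j hj⟩⟩

theorem T2_Q {n : ℕ} (c : VV n) (h : Q2 n c) (hD : ¬ DD n c) (s : ZMod 3) (hs : s ≠ 0) :
    Q1 n (c.1 + s • sd c.2, c.2) := by
  obtain ⟨k, hk, hk0, hk'⟩ := h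
  have h0 : k ≠ 0 := by
    rintro rfl
    exact hD (Or.inr hk)
  obtain ⟨l, hl, h1, h2⟩ := order_lemma c.2 c.1 k hk h0 (fun j hj => (hk' j hj).2)
    (fun j hj => (hk' j hj).1) s hs
  exact ⟨l, h1, fun j hj => ⟨h2 j hj, (hk' j (hj.trans hl)).2⟩⟩

theorem T1_disj {n : ℕ} (a b b' : Vec n) (h : Q1 n (a, b)) (h' : Q1 n (a, b'))
    (hD : ¬ DD n (a, b)) (e : b + (1 : ZMod 3) • sd a = b' + (-1 : ZMod 3) • sd a) : False := by
  obtain ⟨k, hk, hk'⟩ := h
  obtain ⟨l, hl, hl'⟩ := h'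
  have hkl : k = l := by
    rcases lt_trichotomy k l with h | h | h
    · exact absurd (hl' k h).1 hk
    · exact h
    · exact absurd (hk' l h).1 hl
  subst hkl
  have h0 : k ≠ 0 := by
    rintro rfl
    exact hD (Or.inl hk)
  have e2 : b - b' + (2 : ZMod 3) • sd a = 0 := by
    have h2 : (2 : ZMod 3) = 1 - (-1) := by decide
    rw [h2, sub_smul]
    have : b - b' + ((1 : ZMod 3) • sd a - (-1 : ZMod 3) • sd a) =
        (b + (1 : ZMod 3) • sd a) - (b' + (-1 : ZMod 3) • sd a) := by abel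
    rw [this, e, sub_self]
  obtain ⟨m, hm, h1, h2⟩ := order_lemma a (b - b') k hk h0 (fun j hj => (hk' j hj).1)
    (fun j hj => by
      have h1 := (hk' j hj).2
      have h2 := (hl' j hj).2
      show b j - b' j = 0
      rw [show b j = 0 from h1, show b' j = 0 from h2, sub_zero]) 2 (by decide)
  apply h1
  rw [e2]
  rfl

theorem T2_disj {n : ℕ} (a a' b : Vec n) (h : Q2 n (a, b)) (h' : Q2 n (a', b))
    (hD : ¬ DD n (a, b)) (e : a + (1 : ZMod 3) • sd b = a' + (-1 : ZMod 3) • sd b) : False := by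
  obtain ⟨k, hk, hk0, hk'⟩ := h
  obtain ⟨l, hl, hl0, hl'⟩ := h'
  have hkl : k = l := by
    rcases lt_trichotomy k l with h | h | h
    · exact absurd (hl' k h).2 hk
    · exact h
    · exact absurd (hk' l h).2 hl
  subst hkl
  have h0 : k ≠ 0 := by
    rintro rfl
    exact hD (Or.inr hk)
  have e2 : a - a' + (2 : ZMod 3) • sd b = 0 := by
    have h2 : (2 : ZMod 3) = 1 - (-1) := by decide
    rw [h2, sub_smul]
    have : a - a' + ((1 : ZMod 3) • sd b - (-1 : ZMod 3) • sd b) =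
        (a + (1 : ZMod 3) • sd b) - (a' + (-1 : ZMod 3) • sd b) := by abel
    rw [this, e, sub_self]
  obtain ⟨m, hm, h1, h2⟩ := order_lemma b (a - a') k hk h0 (fun j hj => (hk' j hj).2)
    (fun j hj => by
      have h1 := (hk' j hj).1
      have h2 := (hl' j hj).1
      show a j - a' j = 0
      rw [show a j = 0 from h1, show a' j = 0 from h2, sub_zero]) 2 (by decide)
  apply h1
  rw [e2]
  rfl

theorem Coc.norm_b_inv {G H : Type*} [Group G] [SeminormedAddCommGroup H]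
    [InnerProductSpace ℂ H] (K : Coc G H) (g : G) : ‖K.b g⁻¹‖ = ‖K.b g‖ := by
  have h := K.coc g⁻¹ g
  rw [inv_mul_cancel, K.b_one] at h
  have h2 : K.b g⁻¹ = -(K.U g⁻¹ (K.b g)) := eq_neg_of_add_eq_zero_left h.symm
  rw [h2, norm_neg, K.iso]

variable {G : Type*} [Group G] {H : Type*} [SeminormedAddCommGroup H] [InnerProductSpace ℂ H]

section

variable {V C : Type*} [AddCommGroup V] [Fintype V] [Fintype C] [DecidableEq C]
  (D : Dat G H V C)

theorem Dat.ps_union {S T : Finset C} (h : Disjoint S T) (x : H) :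
    ‖D.ps (S ∪ T) x‖ ^ 2 = ‖D.ps S x‖ ^ 2 + ‖D.ps T x‖ ^ 2 := by
  rw [D.norm_ps, D.norm_ps, D.norm_ps, Finset.sum_union h]

theorem Dat.ps_union_le (S T : Finset C) (x : H) :
    ‖D.ps (S ∪ T) x‖ ≤ ‖D.ps S x‖ + ‖D.ps T x‖ := by
  have h1 : S ∪ T = S ∪ (T \ S) := by simp
  rw [h1]
  have h2 := D.ps_union (Finset.disjoint_sdiff : Disjoint S (T \ S)) x
  have h3 : ‖D.ps (T \ S) x‖ ≤ ‖D.ps T x‖ := D.ps_mono Finset.sdiff_subset x
  have h4 := norm_nonneg (D.ps S x)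
  have h5 := norm_nonneg (D.ps (T \ S) x)
  have h6 := norm_nonneg (D.ps (S ∪ (T \ S)) x)
  have h7 : ‖D.ps (S ∪ (T \ S)) x‖ ≤ ‖D.ps S x‖ + ‖D.ps (T \ S) x‖ := by
    nlinarith
  linarith

end

/-- One half of the ping-pong estimate. -/
theorem pp_step {V C : Type*} [AddCommGroup V] [Fintype V] [Fintype C] [DecidableEq C]
    (D : Dat G H V C) (g : G) (θ : V ≃+ V) (T : C ≃ C) (hg : ∀ v, g * D.τ v = D.τ (θ v) * g)
    (hT : ∀ c v, D.P.e (T c) (θ v) = D.P.e c v) (hT0 : T D.P.c0 = D.P.c0)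
    (A A' E : Finset C) (L' : ℝ) (hE : ‖D.ps E D.xi‖ ≤ L')
    (h0 : D.P.c0 ∉ A)
    (h1 : ∀ c ∈ A, c ∉ E → T c ∈ A') (h2 : ∀ c ∈ A, c ∉ E → T.symm c ∈ A')
    (h3 : ∀ c ∈ A, ∀ c' ∈ A, c ∉ E → c' ∉ E → T c ≠ T.symm c') :
    1.4 * (‖D.ps A D.xi‖ - (L' + ‖D.K.b g‖)) ≤ ‖D.ps A' D.xi‖ := by
  have ht0 : T.symm D.P.c0 = D.P.c0 := by
    rw [Equiv.symm_apply_eq, hT0]
  have e1 : ‖D.ps (A \ E) D.xi‖ ≤ ‖D.ps ((A \ E).map T.toEmbedding) D.xi‖ + ‖D.K.b g‖ := by
    apply D.ps_add_conj g θ T hg hT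
    rw [ht0]
    intro h
    exact h0 (Finset.mem_sdiff.1 h).1
  have e2 : ‖D.ps (A \ E) D.xi‖ ≤ ‖D.ps ((A \ E).map T.symm.toEmbedding) D.xi‖ + ‖D.K.b g‖ := by
    rw [← D.K.norm_b_inv g]
    apply D.ps_add_conj g⁻¹ θ.symm T.symm
    · intro v
      have := hg (θ.symm v)
      rw [AddEquiv.apply_symm_apply] at this
      rw [inv_mul_eq_iff_eq_mul, ← mul_assoc, this, mul_inv_cancel_right]
    · intro c v
      have := hT (T.symm c) (θ.symm v)
      rw [AddEquiv.apply_symm_apply, Equiv.apply_symm_apply] at this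
      exact this.symm
    · rw [Equiv.symm_symm, hT0]
      intro h
      exact h0 (Finset.mem_sdiff.1 h).1
  have hdis : Disjoint ((A \ E).map T.toEmbedding) ((A \ E).map T.symm.toEmbedding) := by
    rw [Finset.disjoint_left]
    intro c hc hc'
    rw [Finset.mem_map] at hc hc'
    obtain ⟨x, hx, rfl⟩ := hc
    obtain ⟨y, hy, hxy⟩ := hc'
    rw [Finset.mem_sdiff] at hx hy
    exact h3 x hx.1 y hy.1 hx.2 hy.2 hxy.symm
  have hsub : (A \ E).map T.toEmbedding ∪ (A \ E).map T.symm.toEmbedding ⊆ A' := by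
    intro c hc
    rw [Finset.mem_union, Finset.mem_map, Finset.mem_map] at hc
    rcases hc with ⟨x, hx, rfl⟩ | ⟨x, hx, rfl⟩
    · rw [Finset.mem_sdiff] at hx
      exact h1 x hx.1 hx.2
    · rw [Finset.mem_sdiff] at hx
      exact h2 x hx.1 hx.2
  have e3 := D.ps_mono hsub D.xi
  have e4 := D.ps_union hdis D.xi
  have e5 : ‖D.ps A D.xi‖ ≤ ‖D.ps (A \ E) D.xi‖ + L' := by
    have h4 : A ⊆ (A \ E) ∪ E := by
      intro c hc
      by_cases h : c ∈ E
      · exact Finset.mem_union_right _ h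
      · exact Finset.mem_union_left _ (Finset.mem_sdiff.2 ⟨hc, h⟩)
    calc ‖D.ps A D.xi‖ ≤ ‖D.ps ((A \ E) ∪ E) D.xi‖ := D.ps_mono h4 _
      _ ≤ ‖D.ps (A \ E) D.xi‖ + ‖D.ps E D.xi‖ := D.ps_union_le _ _ _
      _ ≤ _ := by linarith
  by_cases hneg : ‖D.ps A D.xi‖ - (L' + ‖D.K.b g‖) ≤ 0
  · have := norm_nonneg (D.ps A' D.xi)
    nlinarith
  · push Not at hneg
    have e6 : ‖D.ps A D.xi‖ - (L' + ‖D.K.b g‖) ≤ ‖D.ps ((A \ E).map T.toEmbedding) D.xi‖ := by
      linarith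
    have e7 : ‖D.ps A D.xi‖ - (L' + ‖D.K.b g‖) ≤ ‖D.ps ((A \ E).map T.symm.toEmbedding) D.xi‖ := by
      linarith
    set u := ‖D.ps A D.xi‖ - (L' + ‖D.K.b g‖) with hu
    have e8 : u ^ 2 ≤ ‖D.ps ((A \ E).map T.toEmbedding) D.xi‖ ^ 2 :=
      pow_le_pow_left₀ hneg.le e6 2
    have e9 : u ^ 2 ≤ ‖D.ps ((A \ E).map T.symm.toEmbedding) D.xi‖ ^ 2 :=
      pow_le_pow_left₀ hneg.le e7 2
    have e10 : (‖D.ps ((A \ E).map T.toEmbedding ∪ (A \ E).map T.symm.toEmbedding) D.xi‖) ^ 2 ≤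
        ‖D.ps A' D.xi‖ ^ 2 := pow_le_pow_left₀ (norm_nonneg _) e3 2
    have e11 : (1.4 * u) ^ 2 ≤ ‖D.ps A' D.xi‖ ^ 2 := by
      nlinarith
    exact (pow_le_pow_iff_left₀ (by positivity) (norm_nonneg _) (by norm_num)).1 e11

theorem avg_bound {n : ℕ} (K : Coc G H) (τ : VV n → G) (hτ : ∀ v w, τ (v + w) = τ v * τ w)
    (g1 g2 : G) (h1 : ∀ v : VV n, g1 * τ v = τ (v.1 + xm v.2, v.2) * g1)
    (h2 : ∀ v : VV n, g2 * τ v = τ (v.1, v.2 + xm v.1) * g2) (L : ℝ)
    (hL : ‖K.b (τ (Pi.single 0 1, 0))‖ + ‖K.b (τ (0, Pi.single 0 1))‖ + ‖K.b g1‖ + ‖K.b g2‖ ≤ L) :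
    ∑ v, ‖K.b (τ v)‖ ^ 2 ≤ 98 * L ^ 2 * (Fintype.card (VV n)) := by
  classical
  let D : Dat G H (VV n) (VV n) := ⟨K, pairing n, τ, hτ⟩
  let A1 : Finset (VV n) := Finset.univ.filter (Q1 n)
  let A2 : Finset (VV n) := Finset.univ.filter (Q2 n)
  let E1 : Finset (VV n) := Finset.univ.filter fun c => c.1 0 ≠ 0
  let E2 : Finset (VV n) := Finset.univ.filter fun c => c.2 0 ≠ 0
  have hE1 : ‖D.ps E1 D.xi‖ ≤ ‖K.b (τ (Pi.single 0 1, 0))‖ := by
    apply D.ps_nontriv (Pi.single 0 1, 0)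
    intro c hc
    have hc' : c.1 0 ≠ 0 := (Finset.mem_filter.1 hc).2
    show 1 ≤ ‖om (dp c (Pi.single 0 1, 0)) - 1‖
    rw [dp_left]
    exact om_sub_one _ hc'
  have hE2 : ‖D.ps E2 D.xi‖ ≤ ‖K.b (τ (0, Pi.single 0 1))‖ := by
    apply D.ps_nontriv (0, Pi.single 0 1)
    intro c hc
    have hc' : c.2 0 ≠ 0 := (Finset.mem_filter.1 hc).2
    show 1 ≤ ‖om (dp c (0, Pi.single 0 1)) - 1‖
    rw [dp_right]
    exact om_sub_one _ hc'
  have hE : ‖D.ps (E1 ∪ E2) D.xi‖ ≤ ‖K.b (τ (Pi.single 0 1, 0))‖ +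
      ‖K.b (τ (0, Pi.single 0 1))‖ := (D.ps_union_le _ _ _).trans (add_le_add hE1 hE2)
  have hE' : ∀ c, c ∉ E1 ∪ E2 → ¬ DD n c := by
    intro c hc h
    apply hc
    rw [Finset.mem_union]
    rcases h with h | h
    · left
      exact Finset.mem_filter.2 ⟨Finset.mem_univ _, h⟩
    · right
      exact Finset.mem_filter.2 ⟨Finset.mem_univ _, h⟩
  have hA1 : ∀ c, c ∈ A1 ↔ Q1 n c := fun c => by simp [A1]
  have hA2 : ∀ c, c ∈ A2 ↔ Q2 n c := fun c => by simp [A2]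
  have hz1 : (0 : VV n) ∉ A1 := by
    rw [hA1]
    rintro ⟨k, hk, _⟩
    exact hk rfl
  have hz2 : (0 : VV n) ∉ A2 := by
    rw [hA2]
    rintro ⟨k, hk, _⟩
    exact hk rfl
  have sd0 : sd (0 : Vec n) = 0 := by
    have := sd_add (0 : Vec n) 0
    rw [add_zero] at this
    simpa using this
  have m1 : ∀ c : VV n, T1 n c = (c.1, c.2 + (-1 : ZMod 3) • sd c.1) := by
    intro c
    show (c.1, c.2 - sd c.1) = _
    rw [neg_one_smul, sub_eq_add_neg]
  have m1' : ∀ c : VV n, (T1 n).symm c = (c.1, c.2 + (1 : ZMod 3) • sd c.1) := by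
    intro c
    show (c.1, c.2 + sd c.1) = _
    rw [one_smul]
  have m2 : ∀ c : VV n, T2 n c = (c.1 + (-1 : ZMod 3) • sd c.2, c.2) := by
    intro c
    show (c.1 - sd c.2, c.2) = _
    rw [neg_one_smul, sub_eq_add_neg]
  have m2' : ∀ c : VV n, (T2 n).symm c = (c.1 + (1 : ZMod 3) • sd c.2, c.2) := by
    intro c
    show (c.1 + sd c.2, c.2) = _
    rw [one_smul]
  have s1 := pp_step D g1 (th1 n) (T1 n) h1 (fun c v => by
      show om (dp (T1 n c) (th1 n v)) = om (dp c v)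
      rw [T1_th1]) (by
      show T1 n 0 = 0
      rw [m1]
      show ((0 : Vec n), (0 : Vec n) + (-1 : ZMod 3) • sd (0 : Vec n)) = 0
      rw [sd0, smul_zero, add_zero]
      rfl) A1 A2 (E1 ∪ E2) _ hE hz1 (by
      intro c hc hc'
      rw [hA2, m1]
      exact T1_Q c ((hA1 c).1 hc) (hE' c hc') _ neg_one_ne) (by
      intro c hc hc'
      rw [hA2, m1']
      exact T1_Q c ((hA1 c).1 hc) (hE' c hc') _ one_ne_zero) (by
      intro c hc c' hc' he he' h
      rw [m1, m1'] at h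
      obtain ⟨a, b⟩ := c
      obtain ⟨a', b'⟩ := c'
      have e1 : a = a' := congrArg Prod.fst h
      subst e1
      exact T1_disj a b' b ((hA1 _).1 hc') ((hA1 _).1 hc) (hE' _ he')
        (congrArg Prod.snd h).symm)
  have s2 := pp_step D g2 (th2 n) (T2 n) h2 (fun c v => by
      show om (dp (T2 n c) (th2 n v)) = om (dp c v)
      rw [T2_th2]) (by
      show T2 n 0 = 0
      rw [m2]
      show ((0 : Vec n) + (-1 : ZMod 3) • sd (0 : Vec n), (0 : Vec n)) = 0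
      rw [sd0, smul_zero, add_zero]
      rfl) A2 A1 (E1 ∪ E2) _ hE hz2 (by
      intro c hc hc'
      rw [hA1, m2]
      exact T2_Q c ((hA2 c).1 hc) (hE' c hc') _ neg_one_ne) (by
      intro c hc hc'
      rw [hA1, m2']
      exact T2_Q c ((hA2 c).1 hc) (hE' c hc') _ one_ne_zero) (by
      intro c hc c' hc' he he' h
      rw [m2, m2'] at h
      obtain ⟨a, b⟩ := c
      obtain ⟨a', b'⟩ := c'
      have e1 : b = b' := congrArg Prod.snd h
      subst e1
      exact T2_disj a' a b ((hA2 _).1 hc') ((hA2 _).1 hc) (hE' _ he')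
        (congrArg Prod.fst h).symm)
  have hxi : ‖D.xi‖ ^ 2 = ‖D.ps A1 D.xi‖ ^ 2 + ‖D.ps A2 D.xi‖ ^ 2 := by
    have hdis : Disjoint A1 A2 := by
      rw [Finset.disjoint_left]
      intro c h h'
      exact Q12_disj n c ((hA1 c).1 h) ((hA2 c).1 h')
    rw [← D.ps_union hdis, D.norm_all, D.norm_ps]
    symm
    apply Finset.sum_subset (Finset.subset_univ _)
    intro c _ hc
    have hc0 : c = 0 := by
      by_contra h
      apply hc
      rw [Finset.mem_union, hA1, hA2]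
      exact Q12_all n c h
    subst hc0
    have : D.pr (0 : VV n) D.xi = 0 := D.pr_zero_xi
    rw [this, norm_zero]
    norm_num
  have hsum : ∑ v, ‖K.b (τ v)‖ ^ 2 = 2 * (Fintype.card (VV n)) * ‖D.xi‖ ^ 2 := D.sum_b
  have n1 := norm_nonneg (D.ps A1 D.xi)
  have n2 := norm_nonneg (D.ps A2 D.xi)
  have n3 := norm_nonneg (K.b g1)
  have n4 := norm_nonneg (K.b g2)
  have n5 := norm_nonneg (K.b (τ (Pi.single 0 1, 0)))
  have n6 := norm_nonneg (K.b (τ (0, Pi.single 0 1)))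
  have s1' : 1.4 * (‖D.ps A1 D.xi‖ - L) ≤ ‖D.ps A2 D.xi‖ := by
    have : D.K.b g1 = K.b g1 := rfl
    rw [this] at s1
    linarith
  have s2' : 1.4 * (‖D.ps A2 D.xi‖ - L) ≤ ‖D.ps A1 D.xi‖ := by
    have : D.K.b g2 = K.b g2 := rfl
    rw [this] at s2
    linarith
  have h7 : ‖D.ps A1 D.xi‖ + ‖D.ps A2 D.xi‖ ≤ 7 * L := by linarith
  have h8 : ‖D.xi‖ ^ 2 ≤ 49 * L ^ 2 := by
    rw [hxi]
    nlinarith
  rw [hsum]
  have h9 : (0 : ℝ) ≤ Fintype.card (VV n) := by positivity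
  nlinarith

end

end Q88.NoHeat
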