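import Pool.Agent.Q88.Heat.Basic
import Pool.Agent.Q88.NoHeat.PingPong

/-!
The analytic part: smoothing of all elements bounds sums over finite subgroups.
-/

open scoped InnerProductSpace ComplexConjugate

set_option linter.deprecated false
set_option linter.unusedSectionVars false

namespace Q88.NoHeat

noncomputable section

open Q88.Heat (L2 dl lam spanL redC CF hat IsCocycle inner_dl dl_apply dl_apply_self)

/-- The trivial cocycle. -/
def s1 (G : Type*) : G → G → Circle := fun _ _ => 1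

variable {G : Type*} [Group G]

theorem s1_coc : IsCocycle (s1 G) := ⟨fun _ _ _ => rfl, fun _ => rfl, fun _ => rfl⟩

theorem lam1_dl (g h : G) : lam (s1 G) g (dl h) = dl (g * h) := by
  rw [Heat.lam_dl s1_coc]
  show ((1 : Circle) : ℂ) • _ = _
  rw [Circle.coe_one, one_smul]

theorem lam1_mul (g h : G) : lam (s1 G) g * lam (s1 G) h = lam (s1 G) (g * h) := by
  rw [Heat.lam_mul s1_coc]
  show ((1 : Circle) : ℂ) • _ = _
  rw [Circle.coe_one, one_smul]

theorem lam1_star (g : G) : star (lam (s1 G) g) = lam (s1 G) g⁻¹ := by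
  rw [Heat.star_lam s1_coc]
  show star ((1 : Circle) : ℂ) • _ = _
  rw [Circle.coe_one, star_one, one_smul]

/-- The Fourier coefficient as a bounded functional. -/
def hatL (g : G) : (L2 G →L[ℂ] L2 G) →L[ℂ] ℂ :=
  (innerSL ℂ (dl g : L2 G)).comp (ContinuousLinearMap.apply ℂ (L2 G) (dl 1 : L2 G))

theorem hatL_apply (g : G) (x : L2 G →L[ℂ] L2 G) : hatL g x = hat x g := by
  show ⟪(dl g : L2 G), x (dl 1)⟫_ℂ = _
  rw [inner_dl]
  rfl

/-- Banach-Steinhaus for the finite sums of a family of rank one maps on a closed subspace. -/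
theorem bs {E ι : Type*} [NormedAddCommGroup E] [NormedSpace ℂ E] [CompleteSpace E]
    (S : Submodule ℂ E) (hS : IsClosed (S : Set E)) (φ : ι → E →L[ℂ] ℂ) (u : ι → E)
    (h : ∀ x ∈ S, ∃ C : ℝ, ∀ F : Finset ι, ‖∑ i ∈ F, φ i x • u i‖ ≤ C) :
    ∃ C : ℝ, ∀ F : Finset ι, ∀ x ∈ S, ‖∑ i ∈ F, φ i x • u i‖ ≤ C * ‖x‖ := by
  have : CompleteSpace S := hS.completeSpace_coe
  let T : Finset ι → S →L[ℂ] E := fun F => (∑ i ∈ F, (φ i).smulRight (u i)).comp S.subtypeL
  have hT : ∀ F (x : S), T F x = ∑ i ∈ F, φ i (x : E) • u i := by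
    intro F x
    show (∑ i ∈ F, (φ i).smulRight (u i)) (x : E) = _
    rw [ContinuousLinearMap.sum_apply]
    rfl
  obtain ⟨C, hC⟩ := banach_steinhaus (g := T) (by
    intro x
    obtain ⟨C, hC⟩ := h x.1 x.2
    refine ⟨C, fun F => ?_⟩
    rw [hT]
    exact hC F)
  refine ⟨C, fun F x hx => ?_⟩
  have h2 := (T F).le_of_opNorm_le (hC F) ⟨x, hx⟩
  rw [hT] at h2
  exact h2

theorem bounded_of_summable {E : Type*} [NormedAddCommGroup E] [CompleteSpace E] {ι : Type*}
    {f : ι → E} (h : Summable f) : ∃ C, ∀ F : Finset ι, ‖∑ i ∈ F, f i‖ ≤ C := by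
  classical
  rw [summable_iff_vanishing_norm] at h
  obtain ⟨s, hs⟩ := h 1 one_pos
  refine ⟨∑ i ∈ s, ‖f i‖ + 1, ?_⟩
  intro F
  have h1 : ∑ i ∈ F, f i = ∑ i ∈ F ∩ s, f i + ∑ i ∈ F \ s, f i := by
    rw [Finset.sum_inter_add_sum_sdiff]
  rw [h1]
  refine (norm_add_le _ _).trans (add_le_add ?_ (hs _ Finset.sdiff_disjoint).le)
  refine (norm_sum_le _ _).trans ?_
  exact Finset.sum_le_sum_of_subset_of_nonneg Finset.inter_subset_right
    fun _ _ _ => norm_nonneg _

theorem uniform {a : G → ℂ}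
    (h : ∀ x ∈ redC (s1 G), ∃ y ∈ CF (s1 G), ∀ g, hat y g = a g * hat x g) :
    ∃ C, ∀ (F : Finset G), ∀ x ∈ redC (s1 G),
      ‖∑ g ∈ F, (a g * hat x g) • lam (s1 G) g‖ ≤ C * ‖x‖ := by
  have key := bs (spanL (s1 G)).topologicalClosure
    (Submodule.isClosed_topologicalClosure (spanL (s1 G))) (fun g => a g • hatL g)
    (lam (s1 G)) (by
      intro x hx
      obtain ⟨y, hy, hyx⟩ := h x hx
      obtain ⟨C, hC⟩ := bounded_of_summable hy.2
      refine ⟨C, fun F => ?_⟩
      have h1 := hC F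
      simp_rw [hyx] at h1
      have h2 : ∑ g ∈ F, (a g • hatL g) x • lam (s1 G) g =
          ∑ g ∈ F, (a g * hat x g) • lam (s1 G) g := by
        apply Finset.sum_congr rfl
        intro g _
        rw [ContinuousLinearMap.smul_apply, hatL_apply]
        rfl
      rw [h2]
      exact h1)
  obtain ⟨C, hC⟩ := key
  refine ⟨C, fun F x hx => ?_⟩
  have h2 : ∑ g ∈ F, (a g • hatL g) x • lam (s1 G) g =
      ∑ g ∈ F, (a g * hat x g) • lam (s1 G) g := by
    apply Finset.sum_congr rfl
    intro g _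
    rw [ContinuousLinearMap.smul_apply, hatL_apply]
    rfl
  rw [← h2]
  exact hC F x hx

/-- The quadratic form. -/
def qf {n : ℕ} (v : VV n) : ZMod 3 := v.1 ⬝ᵥ v.2

theorem qf_add {n : ℕ} (v u : VV n) : qf (v + u) = qf v + (dp (u.2, u.1) v + qf u) := by
  unfold qf dp
  rw [Prod.fst_add, Prod.snd_add, add_dotProduct, dotProduct_add, dotProduct_add,
    dotProduct_comm v.1 u.2]
  ring

theorem om_star (x : ZMod 3) : star (om x) * om x = 1 := by
  rw [Complex.star_def, ← Complex.normSq_eq_conj_mul_self, Complex.normSq_eq_norm_sq, om_norm]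
  norm_num

theorem sum_om {n : ℕ} (u : VV n) :
    ∑ v, star (om (qf v)) * om (qf (v + u)) = if u = 0 then (Fintype.card (VV n) : ℂ) else 0 := by
  have h1 : ∀ v, star (om (qf v)) * om (qf (v + u)) = om (dp v (u.2, u.1)) * om (qf u) := by
    intro v
    rw [qf_add, om_add, ← mul_assoc, om_star, one_mul, om_add, dp_comm]
  rw [Finset.sum_congr rfl (fun v _ => h1 v), ← Finset.sum_mul]
  split_ifs with h
  · subst h
    have h2 : ∀ v : VV n, om (dp v ((0 : VV n).2, (0 : VV n).1)) = 1 := by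
      intro v
      have : dp v ((0 : VV n).2, (0 : VV n).1) = 0 := by
        unfold dp
        simp
      rw [this, om_zero]
    rw [Finset.sum_congr rfl (fun v _ => h2 v)]
    have h3 : qf (0 : VV n) = 0 := by
      unfold qf
      simp
    rw [h3, om_zero]
    simp
  · have h2 : (u.2, u.1) ≠ (0 : VV n) := by
      intro h'
      apply h
      apply Prod.ext
      · exact congrArg Prod.snd h'
      · exact congrArg Prod.fst h'
    have h3 := (pairing n).tot _ h2
    change ∑ c : VV n, om (dp c (u.2, u.1)) = 0 at h3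
    rw [h3, zero_mul]

variable {n : ℕ} (τ : VV n → G)

/-- The test element. -/
def tst : L2 G →L[ℂ] L2 G := ∑ v, om (qf v) • lam (s1 G) (τ v)

theorem tst_mem : tst τ ∈ redC (s1 G) := by
  apply subset_closure
  exact Submodule.sum_mem _ fun v _ => Submodule.smul_mem _ _ (Heat.lam_mem _)

variable (hτ : ∀ v w, τ (v + w) = τ v * τ w)

include hτ

theorem tau0 : τ 0 = 1 := by
  have h := hτ 0 0
  rw [add_zero] at h
  exact (mul_eq_left.1 h.symm)

theorem tst_star_mul : star (tst τ) * tst τ = (Fintype.card (VV n) : ℂ) • 1 := by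
  have h1 : star (tst τ) = ∑ v, star (om (qf v)) • lam (s1 G) (τ v)⁻¹ := by
    unfold tst
    rw [star_sum]
    apply Finset.sum_congr rfl
    intro v _
    rw [star_smul, lam1_star]
  rw [h1]
  unfold tst
  rw [Finset.sum_mul]
  have h2 : ∀ v, (star (om (qf v)) • lam (s1 G) (τ v)⁻¹) * ∑ w, om (qf w) • lam (s1 G) (τ w) =
      ∑ u, (star (om (qf v)) * om (qf (v + u))) • lam (s1 G) (τ u) := by
    intro v
    rw [Finset.mul_sum]
    symm
    refine Fintype.sum_equiv (Equiv.addLeft v) _ _ fun u => ?_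
    show _ = (star (om (qf v)) • lam (s1 G) (τ v)⁻¹) * (om (qf (v + u)) • lam (s1 G) (τ (v + u)))
    rw [smul_mul_smul_comm, lam1_mul, hτ, inv_mul_cancel_left]
  rw [Finset.sum_congr rfl (fun v _ => h2 v), Finset.sum_comm]
  have h3 : ∀ u, ∑ v, (star (om (qf v)) * om (qf (v + u))) • lam (s1 G) (τ u) =
      (if u = 0 then (Fintype.card (VV n) : ℂ) else 0) • lam (s1 G) (τ u) := by
    intro u
    rw [← Finset.sum_smul, sum_om]
  rw [Finset.sum_congr rfl (fun u _ => h3 u), Finset.sum_eq_single 0]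
  · rw [if_pos rfl, tau0 τ hτ, Heat.lam_one s1_coc]
  · intro u _ hu
    rw [if_neg hu, zero_smul]
  · intro h
    exact absurd (Finset.mem_univ _) h

omit hτ in
theorem card_VV (n : ℕ) : Fintype.card (VV n) = 3 ^ (n + 1) * 3 ^ (n + 1) := by
  simp [ZMod.card]

theorem norm_tst : ‖tst τ‖ = 3 ^ (n + 1) := by
  have h := CStarRing.norm_star_mul_self (x := tst τ)
  rw [tst_star_mul τ hτ, norm_smul, norm_one, mul_one, card_VV] at h
  have h2 : ‖(((3 ^ (n + 1) * 3 ^ (n + 1) : ℕ) : ℂ))‖ = (3 : ℝ) ^ (n + 1) * 3 ^ (n + 1) := by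
    rw [Complex.norm_natCast]
    push_cast
    ring
  rw [h2] at h
  have h3 : (0 : ℝ) < 3 ^ (n + 1) := by positivity
  nlinarith [norm_nonneg (tst τ)]

theorem norm_lower (c : VV n → ℂ) (hinj : Function.Injective τ) :
    ‖∑ v, c v‖ ≤ ‖∑ v, c v • lam (s1 G) (τ v)‖ := by
  classical
  set u : L2 G := ∑ w, dl (τ w) with hu
  have h1 : ∀ v, lam (s1 G) (τ v) u = u := by
    intro v
    rw [hu, map_sum]
    refine Fintype.sum_equiv (Equiv.addLeft v) _ _ fun w => ?_
    show lam (s1 G) (τ v) (dl (τ w)) = dl (τ (v + w))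
    rw [lam1_dl, hτ]
  have h2 : (∑ v, c v • lam (s1 G) (τ v)) u = (∑ v, c v) • u := by
    rw [ContinuousLinearMap.sum_apply, Finset.sum_smul]
    apply Finset.sum_congr rfl
    intro v _
    rw [ContinuousLinearMap.smul_apply, h1]
  have h3 : u ≠ 0 := by
    intro h
    have h4 : ⟪(dl (τ 0) : L2 G), u⟫_ℂ = 1 := by
      rw [hu, inner_sum, Finset.sum_eq_single 0]
      · rw [inner_dl, dl_apply_self]
      · intro w _ hw
        rw [inner_dl, dl_apply, if_neg]
        intro h'
        exact hw (hinj h').symm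
      · intro h
        exact absurd (Finset.mem_univ _) h
    rw [h, inner_zero_right] at h4
    exact zero_ne_one h4
  have h4 : 0 < ‖u‖ := norm_pos_iff.2 h3
  have h5 := (∑ v, c v • lam (s1 G) (τ v)).le_opNorm u
  rw [h2, norm_smul] at h5
  exact le_of_mul_le_mul_right h5 h4

theorem hat_tst (hinj : Function.Injective τ) (v : VV n) : hat (tst τ) (τ v) = om (qf v) := by
  classical
  have h : hatL (τ v) (tst τ) = om (qf v) := by
    unfold tst
    rw [map_sum, Finset.sum_eq_single v]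
    · rw [map_smul, hatL_apply]
      show om (qf v) * (lam (s1 G) (τ v) (dl 1)) (τ v) = _
      rw [lam1_dl, mul_one, dl_apply_self, mul_one]
    · intro w _ hw
      rw [map_smul, hatL_apply]
      show om (qf w) * (lam (s1 G) (τ w) (dl 1)) (τ v) = _
      rw [lam1_dl, mul_one, dl_apply, if_neg, mul_zero]
      intro h'
      exact hw (hinj h').symm
    · intro h
      exact absurd (Finset.mem_univ _) h
  rw [← hatL_apply, h]

omit hτ in
theorem blow {d : G → ℝ} {t : ℝ}
    (h : ∀ x ∈ redC (s1 G), ∃ y ∈ CF (s1 G), ∀ g,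
      hat y g = (Real.exp (-(t * d g)) : ℂ) * hat x g) :
    ∃ C : ℝ, ∀ (n : ℕ) (τ : VV n → G), (∀ v w, τ (v + w) = τ v * τ w) → Function.Injective τ →
      ∑ v, Real.exp (-(t * d (τ v))) ≤ C * 3 ^ (n + 1) := by
  classical
  obtain ⟨C, hC⟩ := uniform (a := fun g => (Real.exp (-(t * d g)) : ℂ)) h
  refine ⟨3 * C, ?_⟩
  intro n τ hτ hinj
  have h1 : ∀ i : ZMod 3, ∑ v ∈ Finset.univ.filter (fun v : VV n => qf v = i),
      Real.exp (-(t * d (τ v))) ≤ C * 3 ^ (n + 1) := by
    intro i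
    have h2 := hC ((Finset.univ.filter (fun v : VV n => qf v = i)).image τ) (tst τ) (tst_mem τ)
    rw [norm_tst τ hτ, Finset.sum_image (fun x _ y _ hxy => hinj hxy)] at h2
    refine le_trans ?_ h2
    have h3 : ∑ v ∈ Finset.univ.filter (fun v : VV n => qf v = i),
        ((Real.exp (-(t * d (τ v))) : ℂ) * hat (tst τ) (τ v)) • lam (s1 G) (τ v) =
        ∑ v, (if qf v = i then (Real.exp (-(t * d (τ v))) : ℂ) * om i else 0) •
          lam (s1 G) (τ v) := by
      rw [Finset.sum_filter]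
      apply Finset.sum_congr rfl
      intro v _
      split_ifs with hv
      · rw [hat_tst τ hτ hinj, hv]
      · rw [zero_smul]
    rw [h3]
    refine le_trans ?_ (norm_lower τ hτ _ hinj)
    have h4 : ∑ v, (if qf v = i then (Real.exp (-(t * d (τ v))) : ℂ) * om i else 0) =
        ((∑ v ∈ Finset.univ.filter (fun v : VV n => qf v = i),
          Real.exp (-(t * d (τ v))) : ℝ) : ℂ) * om i := by
      rw [Complex.ofReal_sum, Finset.sum_mul, Finset.sum_filter]
    rw [h4, norm_mul, om_norm, mul_one, Complex.norm_real]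
    exact le_abs_self _
  have h5 : ∑ v, Real.exp (-(t * d (τ v))) = ∑ i : ZMod 3,
      ∑ v ∈ Finset.univ.filter (fun v : VV n => qf v = i), Real.exp (-(t * d (τ v))) := by
    rw [Finset.sum_fiberwise]
  rw [h5]
  calc ∑ i : ZMod 3, ∑ v ∈ Finset.univ.filter (fun v : VV n => qf v = i),
      Real.exp (-(t * d (τ v))) ≤ ∑ _i : ZMod 3, C * 3 ^ (n + 1) :=
        Finset.sum_le_sum fun i _ => h1 i
    _ = 3 * C * 3 ^ (n + 1) := by
        rw [Finset.sum_const, Finset.card_univ, ZMod.card, nsmul_eq_mul]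
        push_cast
        ring

omit hτ in
/-- Jensen's inequality for the exponential. -/
theorem jensen {V : Type*} [Fintype V] [Nonempty V] (f : V → ℝ) (M : ℝ)
    (hM : ∑ v, f v ≤ M * Fintype.card V) :
    Real.exp (-M) * Fintype.card V ≤ ∑ v, Real.exp (-(f v)) := by
  have h1 : ∀ v, Real.exp (-M) * (1 + (M - f v)) ≤ Real.exp (-(f v)) := by
    intro v
    have h2 : Real.exp (-(f v)) = Real.exp (-M) * Real.exp (M - f v) := by
      rw [← Real.exp_add]
      congr 1
      ring
    rw [h2]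
    apply mul_le_mul_of_nonneg_left _ (Real.exp_pos _).le
    have := Real.add_one_le_exp (M - f v)
    linarith
  have h3 : ∑ v, Real.exp (-M) * (1 + (M - f v)) ≤ ∑ v, Real.exp (-(f v)) :=
    Finset.sum_le_sum fun v _ => h1 v
  refine le_trans ?_ h3
  rw [← Finset.mul_sum]
  apply mul_le_mul_of_nonneg_left _ (Real.exp_pos _).le
  rw [Finset.sum_add_distrib, Finset.sum_sub_distrib]
  simp only [Finset.sum_const, Finset.card_univ, nsmul_eq_mul, mul_one]
  linarith [mul_comm M (Fintype.card V : ℝ)]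

end

end Q88.NoHeat
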