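import Pool.Agent.Q88.Heat.Stmt

/-!
Amenable groups have the Haagerup property: proper negative definite functions from Følner sets.
-/

open Finset

set_option linter.unusedSectionVars false

namespace Q88.NoHeat

noncomputable section

open Q88.HeatS (ND0)

variable {G : Type*} [Group G] [DecidableEq G]

/-- The number of points of `F` moved out of `F`. -/
def out (F : Finset G) (g : G) : ℕ := #{x ∈ F | g * x ∉ F}

/-- The number of points of `F` moved into `F`. -/
def inn (F : Finset G) (g : G) : ℕ := #{x ∈ F | g * x ∈ F}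

theorem out_add_inn (F : Finset G) (g : G) : inn F g + out F g = #F :=
  card_filter_add_card_filter_not _

theorem inn_inv (F : Finset G) (g : G) : inn F g⁻¹ = inn F g := by
  unfold inn
  refine card_bij (fun x _ => g⁻¹ * x) ?_ ?_ ?_
  · intro x hx
    rw [mem_filter] at hx ⊢
    refine ⟨hx.2, ?_⟩
    rw [mul_inv_cancel_left]
    exact hx.1
  · intro x _ y _ h
    exact mul_left_cancel h
  · intro y hy
    rw [mem_filter] at hy
    refine ⟨g * y, ?_, by rw [inv_mul_cancel_left]⟩
    rw [mem_filter]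
    refine ⟨hy.2, ?_⟩
    rw [inv_mul_cancel_left]
    exact hy.1

theorem out_real (F : Finset G) (g : G) : (out F g : ℝ) = #F - inn F g := by
  have := out_add_inn F g
  have h : ((inn F g : ℝ)) + out F g = #F := by exact_mod_cast this
  linarith

theorem inn_eq (F U : Finset G) (g h : G) (hU : ∀ x ∈ F, h * x ∈ U) :
    (inn F (g⁻¹ * h) : ℂ) = ∑ y ∈ U, (if g⁻¹ * y ∈ F then 1 else 0) *
      (if h⁻¹ * y ∈ F then 1 else 0) := by
  have h1 : inn F (g⁻¹ * h) = #{y ∈ U | g⁻¹ * y ∈ F ∧ h⁻¹ * y ∈ F} := by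
    unfold inn
    refine card_bij (fun x _ => h * x) ?_ ?_ ?_
    · intro x hx
      rw [mem_filter] at hx ⊢
      refine ⟨hU x hx.1, ?_, ?_⟩
      · rw [← mul_assoc]
        exact hx.2
      · rw [inv_mul_cancel_left]
        exact hx.1
    · intro x _ y _ h
      exact mul_left_cancel h
    · intro y hy
      rw [mem_filter] at hy
      refine ⟨h⁻¹ * y, ?_, by rw [mul_inv_cancel_left]⟩
      rw [mem_filter]
      refine ⟨hy.2.2, ?_⟩
      rw [mul_assoc, mul_inv_cancel_left]
      exact hy.2.1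
  rw [h1, card_filter]
  push_cast
  apply sum_congr rfl
  intro y _
  by_cases h2 : g⁻¹ * y ∈ F <;> by_cases h3 : h⁻¹ * y ∈ F <;> simp [h2, h3]

theorem nd0_out (F : Finset G) : ND0 (fun g => (out F g : ℝ)) where
  nonneg g := by positivity
  one := by
    simp [out]
  inv g := by
    show (out F g⁻¹ : ℝ) = out F g
    rw [out_real, out_real, inn_inv]
  neg := by
    intro n g b hb
    let U : Finset G := univ.biUnion fun j : Fin n => F.image (fun x => g j * x)
    have hU : ∀ j : Fin n, ∀ x ∈ F, g j * x ∈ U := by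
      intro j x hx
      rw [mem_biUnion]
      exact ⟨j, mem_univ _, mem_image_of_mem _ hx⟩
    have h1 : ∑ i, ∑ j, star (b i) * b j * ((out F ((g i)⁻¹ * g j) : ℝ) : ℂ) =
        -∑ y ∈ U, star (∑ i, b i * (if (g i)⁻¹ * y ∈ F then 1 else 0)) *
          (∑ j, b j * (if (g j)⁻¹ * y ∈ F then 1 else 0)) := by
      have h2 : ∀ i j, star (b i) * b j * ((out F ((g i)⁻¹ * g j) : ℝ) : ℂ) =
          star (b i) * b j * (#F : ℂ) - ∑ y ∈ U, star (b i * (if (g i)⁻¹ * y ∈ F then 1 else 0)) *
            (b j * (if (g j)⁻¹ * y ∈ F then 1 else 0)) := by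
        intro i j
        rw [out_real]
        push_cast
        rw [inn_eq F U (g i) (g j) (hU j), mul_sub, mul_sum]
        congr 1
        apply sum_congr rfl
        intro y _
        rw [star_mul']
        have : star (if (g i)⁻¹ * y ∈ F then (1 : ℂ) else 0) =
            if (g i)⁻¹ * y ∈ F then (1 : ℂ) else 0 := by
          split_ifs <;> simp
        rw [this]
        ring
      simp_rw [h2, sum_sub_distrib]
      have h3 : ∑ i, ∑ j, star (b i) * b j * (#F : ℂ) = 0 := by
        have : ∀ i, ∑ j, star (b i) * b j * (#F : ℂ) = 0 := by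
          intro i
          rw [← sum_mul, ← mul_sum, hb, mul_zero, zero_mul]
        exact sum_eq_zero fun i _ => this i
      rw [h3, zero_sub]
      congr 1
      have h4 : ∀ i, ∑ j, ∑ y ∈ U, star (b i * (if (g i)⁻¹ * y ∈ F then 1 else 0)) *
            (b j * (if (g j)⁻¹ * y ∈ F then 1 else 0)) = ∑ y ∈ U, ∑ j,
            star (b i * (if (g i)⁻¹ * y ∈ F then 1 else 0)) *
            (b j * (if (g j)⁻¹ * y ∈ F then 1 else 0)) := fun i => sum_comm
      rw [sum_congr rfl (fun i _ => h4 i), sum_comm]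
      apply sum_congr rfl
      intro y _
      rw [star_sum, sum_mul_sum]
    rw [h1, Complex.neg_re, Complex.re_sum]
    apply neg_nonpos_of_nonneg
    apply sum_nonneg
    intro y _
    rw [Complex.star_def, ← Complex.normSq_eq_conj_mul_self, Complex.ofReal_re]
    exact Complex.normSq_nonneg _

theorem nd0_tsum (φ : ℕ → G → ℝ) (h : ∀ i, ND0 (φ i)) (hs : ∀ g, Summable fun i => φ i g) :
    ND0 fun g => ∑' i, φ i g where
  nonneg g := tsum_nonneg fun i => (h i).nonneg g
  one := by
    simp [(h _).one]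
  inv g := by
    simp [(h _).inv]
  neg := by
    intro n g b hb
    have h1 : (∑ i, ∑ j, star (b i) * b j * ((∑' k, φ k ((g i)⁻¹ * g j) : ℝ) : ℂ)).re =
        ∑' k, (∑ i, ∑ j, star (b i) * b j * ((φ k ((g i)⁻¹ * g j) : ℝ) : ℂ)).re := by
      have h2 : ∀ ψ : G → ℝ, (∑ i, ∑ j, star (b i) * b j * ((ψ ((g i)⁻¹ * g j) : ℝ) : ℂ)).re =
          ∑ i, ∑ j, (star (b i) * b j).re * ψ ((g i)⁻¹ * g j) := by
        intro ψ
        rw [Complex.re_sum]
        apply sum_congr rfl
        intro i _
        rw [Complex.re_sum]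
        apply sum_congr rfl
        intro j _
        rw [Complex.re_mul_ofReal]
      rw [h2 (fun x => ∑' k, φ k x)]
      have h3 : ∀ k, (∑ i, ∑ j, star (b i) * b j * ((φ k ((g i)⁻¹ * g j) : ℝ) : ℂ)).re =
          ∑ i, ∑ j, (star (b i) * b j).re * φ k ((g i)⁻¹ * g j) := fun k => h2 (φ k)
      rw [tsum_congr h3]
      rw [Summable.tsum_finsetSum]
      · apply sum_congr rfl
        intro i _
        rw [Summable.tsum_finsetSum]
        · apply sum_congr rfl
          intro j _
          rw [tsum_mul_left]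
        · intro j _
          exact (hs _).mul_left _
      · intro i _
        exact summable_sum fun j _ => (hs _).mul_left _
    rw [h1]
    exact tsum_nonpos fun k => (h k).neg n g b hb

theorem nd0_smul {φ : G → ℝ} (h : ND0 φ) {c : ℝ} (hc : 0 ≤ c) : ND0 fun g => c * φ g where
  nonneg g := mul_nonneg hc (h.nonneg g)
  one := by simp [h.one]
  inv g := by simp [h.inv]
  neg := by
    intro n g b hb
    have h1 : (∑ i, ∑ j, star (b i) * b j * ((c * φ ((g i)⁻¹ * g j) : ℝ) : ℂ)) =
        (c : ℂ) * ∑ i, ∑ j, star (b i) * b j * ((φ ((g i)⁻¹ * g j) : ℝ) : ℂ) := by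
      rw [mul_sum]
      apply sum_congr rfl
      intro i _
      rw [mul_sum]
      apply sum_congr rfl
      intro j _
      push_cast
      ring
    rw [h1, Complex.re_ofReal_mul]
    exact mul_nonpos_of_nonneg_of_nonpos hc (h.neg n g b hb)

theorem haagerup (F : ℕ → Finset G) (hne : ∀ i, (F i).Nonempty)
    (hF : ∀ g, ∃ C : ℝ, ∃ r : ℕ, ∀ i ≥ r, (out (F i) g : ℝ) * 4 ^ i ≤ C * #(F i)) :
    ∃ d : G → ℝ, ND0 d ∧ ∀ s, {g | d g ≤ s}.Finite := by
  let φ : ℕ → G → ℝ := fun i g => (2 ^ i / #(F i) : ℝ) * out (F i) g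
  have hpos : ∀ i, (0 : ℝ) < #(F i) := by
    intro i
    have := (hne i).card_pos
    exact_mod_cast this
  have hφ : ∀ i, ND0 (φ i) := fun i => nd0_smul (nd0_out (F i)) (by positivity)
  have hs : ∀ g, Summable fun i => φ i g := by
    intro g
    obtain ⟨C, r, h⟩ := hF g
    have h1 : Summable fun i : ℕ => C * (1 / 2 : ℝ) ^ i :=
      (summable_geometric_of_lt_one (by norm_num) (by norm_num)).mul_left _
    apply Summable.of_norm_bounded_eventually_nat h1
    filter_upwards [Filter.eventually_ge_atTop r] with i hi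
    rw [Real.norm_eq_abs, abs_of_nonneg ((hφ i).nonneg g)]
    have h2 := h i hi
    show (2 ^ i / #(F i) : ℝ) * out (F i) g ≤ C * (1 / 2 : ℝ) ^ i
    rw [div_mul_eq_mul_div, div_le_iff₀ (hpos i)]
    have h4 : (4 : ℝ) ^ i = 2 ^ i * 2 ^ i := by
      rw [← mul_pow]
      norm_num
    have h5 : (0 : ℝ) < 2 ^ i := by positivity
    rw [h4] at h2
    have h6 : (1 / 2 : ℝ) ^ i * 2 ^ i = 1 := by
      rw [← mul_pow]
      norm_num
    have h7 : (2 : ℝ) ^ i * out (F i) g = ((1 / 2 : ℝ) ^ i) *
        ((out (F i) g : ℝ) * (2 ^ i * 2 ^ i)) := by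
      calc (2 : ℝ) ^ i * out (F i) g = ((1 / 2 : ℝ) ^ i * 2 ^ i) * ((out (F i) g : ℝ) * 2 ^ i) := by
            rw [h6]
            ring
        _ = _ := by ring
    rw [h7]
    calc ((1 / 2 : ℝ) ^ i) * ((out (F i) g : ℝ) * (2 ^ i * 2 ^ i)) ≤
        ((1 / 2 : ℝ) ^ i) * (C * #(F i)) := by
          apply mul_le_mul_of_nonneg_left h2
          positivity
      _ = _ := by ring
  refine ⟨fun g => ∑' i, φ i g, nd0_tsum φ hφ hs, ?_⟩
  intro s
  obtain ⟨i, hi⟩ := pow_unbounded_of_one_lt s (by norm_num : (1 : ℝ) < 2)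
  apply Set.Finite.subset ((F i ×ˢ F i).image (fun z => z.2 * z.1⁻¹)).finite_toSet
  intro g hg
  have h1 : φ i g ≤ s := by
    refine le_trans ?_ hg
    exact (hs g).le_tsum i (fun j _ => (hφ j).nonneg g)
  have h2 : (out (F i) g : ℝ) < #(F i) := by
    by_contra h
    push Not at h
    have h3 : (2 : ℝ) ^ i ≤ φ i g := by
      show (2 : ℝ) ^ i ≤ (2 ^ i / #(F i) : ℝ) * out (F i) g
      rw [div_mul_eq_mul_div, le_div_iff₀ (hpos i)]
      exact mul_le_mul_of_nonneg_left h (by positivity)
    linarith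
  have h3 : 0 < inn (F i) g := by
    have := out_add_inn (F i) g
    have h4 : out (F i) g < #(F i) := by exact_mod_cast h2
    omega
  obtain ⟨x, hx⟩ := card_pos.1 h3
  rw [mem_filter] at hx
  rw [coe_image]
  refine ⟨(x, g * x), ?_, ?_⟩
  · rw [mem_coe, mem_product]
    exact hx
  · show g * x * x⁻¹ = g
    group

end

end Q88.NoHeat
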