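import Pool.Agent.Q88.NoHeat.Grp
import Pool.Agent.Q88.NoHeat.PingPong

/-!
The elements of the group used in the estimate, and their relations.
-/

set_option linter.unusedSectionVars false

namespace Q88.NoHeat

noncomputable section

variable (Γ : ℕ → Type) [∀ m, Group (Γ m)] [∀ m, Finite (Γ m)] {A : Type} [Group A] [Finite A]
  (p q : ∀ m, A →* Γ m)

/-- `a` in the column zero. -/
def fa (a : A) : Full Γ := fun m k => if k = 0 then p m a else 1

/-- `b` on a diagonal. -/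
def fb (j : ℤ) (b : A) : Full Γ := fun m k => if k - m = j then q m b else 1

/-- a single element of `Γ m`. -/
def fs (m : ℕ) (x : Γ m) : Full Γ := Pi.mulSingle m (Pi.mulSingle 0 x)

theorem fa_mem (a : A) : fa Γ p a ∈ NN Γ p q 0 := by
  refine ⟨fun k => if k = 0 then a else 1, fun _ => 1, ?_, fun _ _ => rfl, ?_, ?_⟩
  · intro k hk
    have : k ≠ 0 := by
      rintro rfl
      simp at hk
    exact if_neg this
  · intro m _ k
    show (if k = 0 then p m a else 1) = p m (if k = 0 then a else 1) * q m 1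
    rw [map_one, mul_one]
    split_ifs
    · rfl
    · rw [map_one]
  · intro m _ k hk
    have : k ≠ 0 := by
      rintro rfl
      simp at hk
    exact if_neg this

theorem fb_mem (j : ℤ) (b : A) : fb Γ q j b ∈ NN Γ p q j.natAbs := by
  have hj1 : j ≤ j.natAbs := Int.le_natAbs
  have hj2 : -j ≤ j.natAbs := by omega
  refine ⟨fun _ => 1, fun k => if k = j then b else 1, fun _ _ => rfl, ?_, ?_, ?_⟩
  · intro k hk
    have : k ≠ j := by
      rintro rfl
      rw [lt_abs] at hk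
      omega
    exact if_neg this
  · intro m _ k
    show (if k - m = j then q m b else 1) = p m 1 * q m (if k - m = j then b else 1)
    rw [map_one, one_mul]
    split_ifs
    · rfl
    · rw [map_one]
  · intro m hm k hk
    have : k - m ≠ j := by
      intro h
      rw [lt_abs] at hk
      omega
    exact if_neg this

theorem fs_mem (m : ℕ) (x : Γ m) : fs Γ m x ∈ NN Γ p q m := by
  refine ⟨fun _ => 1, fun _ => 1, fun _ _ => rfl, fun _ _ => rfl, ?_, ?_⟩
  · intro m' hm k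
    have h : m' ≠ m := by omega
    show fs Γ m x m' k = _
    unfold fs
    rw [Pi.mulSingle_eq_of_ne h, map_one, map_one, mul_one]
    rfl
  · intro m' _ k hk
    have hk' : k ≠ 0 := by
      rintro rfl
      rw [abs_zero] at hk
      omega
    show fs Γ m x m' k = _
    unfold fs
    by_cases h : m' = m
    · subst h
      rw [Pi.mulSingle_eq_same, Pi.mulSingle_eq_of_ne hk']
    · rw [Pi.mulSingle_eq_of_ne h]
      rfl

theorem fs_mul (m : ℕ) (x y : Γ m) : fs Γ m (x * y) = fs Γ m x * fs Γ m y := by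
  unfold fs
  rw [Pi.mulSingle_mul, Pi.mulSingle_mul]

theorem fs_inj (m : ℕ) {x y : Γ m} (h : fs Γ m x = fs Γ m y) : x = y := by
  unfold fs at h
  have h1 := Pi.mulSingle_injective m h
  exact Pi.mulSingle_injective 0 h1

theorem fa_at (m : ℕ) (a : A) : fa Γ p a m 0 = p m a := if_pos rfl

theorem fb_at (m : ℕ) (b : A) : fb Γ q (-(m : ℤ)) b m 0 = q m b := if_pos (by ring)

/-- An element with `z m 0 = y` conjugates the single elements. -/
theorem conj_fs (z : Full Γ) (m : ℕ) (x : Γ m) :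
    z * fs Γ m x = fs Γ m (z m 0 * x * (z m 0)⁻¹) * z := by
  funext m' k
  show z m' k * fs Γ m x m' k = fs Γ m (z m 0 * x * (z m 0)⁻¹) m' k * z m' k
  unfold fs
  by_cases h : m' = m
  · subst h
    rw [Pi.mulSingle_eq_same, Pi.mulSingle_eq_same]
    by_cases hk : k = 0
    · subst hk
      rw [Pi.mulSingle_eq_same, Pi.mulSingle_eq_same]
      group
    · rw [Pi.mulSingle_eq_of_ne hk, Pi.mulSingle_eq_of_ne hk, mul_one, one_mul]
  · rw [Pi.mulSingle_eq_of_ne h, Pi.mulSingle_eq_of_ne h]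
    show z m' k * 1 = 1 * z m' k
    rw [mul_one, one_mul]

/-- The commutator of a column element and a diagonal element. -/
theorem comm_fs (m : ℕ) (a b : A) :
    fs Γ m (p m a * q m b * (p m a)⁻¹ * (q m b)⁻¹) =
      fa Γ p a * fb Γ q (-(m : ℤ)) b * (fa Γ p a)⁻¹ * (fb Γ q (-(m : ℤ)) b)⁻¹ := by
  funext m' k
  show fs Γ m _ m' k = fa Γ p a m' k * fb Γ q (-(m : ℤ)) b m' k * (fa Γ p a m' k)⁻¹ *
    (fb Γ q (-(m : ℤ)) b m' k)⁻¹
  unfold fs
  by_cases hk : k = 0
  · subst hk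
    by_cases h : m' = m
    · subst h
      rw [Pi.mulSingle_eq_same, Pi.mulSingle_eq_same, fa_at, fb_at]
    · rw [Pi.mulSingle_eq_of_ne h]
      have : fb Γ q (-(m : ℤ)) b m' 0 = 1 := by
        apply if_neg
        intro h'
        apply h
        have : (m' : ℤ) = m := by linarith
        exact_mod_cast this
      rw [this]
      show (1 : Γ m') = _
      group
  · have : fa Γ p a m' k = 1 := if_neg hk
    rw [this]
    have h2 : (Pi.mulSingle m (Pi.mulSingle 0 (p m a * q m b * (p m a)⁻¹ * (q m b)⁻¹)) :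
        Full Γ) m' k = 1 := by
      by_cases h : m' = m
      · subst h
        rw [Pi.mulSingle_eq_same, Pi.mulSingle_eq_of_ne hk]
      · rw [Pi.mulSingle_eq_of_ne h]
        rfl
    rw [h2]
    group

/-- Embedding of sequences in the group. -/
def em (z : Full Γ) (h : ∃ r, z ∈ NN Γ p q r) : GG Γ p q := ⟨⟨z, 1⟩, h⟩

theorem em_mul (z w : Full Γ) (h : ∃ r, z ∈ NN Γ p q r) (h' : ∃ r, w ∈ NN Γ p q r)
    (h'' : ∃ r, z * w ∈ NN Γ p q r) :
    em Γ p q (z * w) h'' = em Γ p q z h * em Γ p q w h' := by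
  apply Subtype.ext
  apply SemidirectProduct.ext
  · show z * w = z * sh Γ 1 w
    rw [map_one]
    rfl
  · rfl

theorem em_inv (z : Full Γ) (h : ∃ r, z ∈ NN Γ p q r) (h' : ∃ r, z⁻¹ ∈ NN Γ p q r) :
    em Γ p q z⁻¹ h' = (em Γ p q z h)⁻¹ := by
  apply eq_inv_of_mul_eq_one_left
  apply Subtype.ext
  apply SemidirectProduct.ext
  · show z⁻¹ * sh Γ 1 z = 1
    rw [map_one]
    show z⁻¹ * z = 1
    rw [inv_mul_cancel]
  · rfl

/-- The shift as an element of the group. -/
def tt : GG Γ p q := ⟨⟨1, Multiplicative.ofAdd 1⟩, 0, one_mem _⟩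

theorem tt_pow (n : ℕ) : ((tt Γ p q) ^ n : GG Γ p q) =
    ⟨⟨1, Multiplicative.ofAdd (n : ℤ)⟩, 0, one_mem _⟩ := by
  induction n with
  | zero =>
    rw [pow_zero]
    rfl
  | succ n ih =>
    rw [pow_succ, ih]
    apply Subtype.ext
    apply SemidirectProduct.ext
    · show (1 : Full Γ) * shA Γ (n : ℤ) 1 = 1
      rw [map_one, mul_one]
    · show Multiplicative.ofAdd (n : ℤ) * Multiplicative.ofAdd (1 : ℤ) =
        Multiplicative.ofAdd ((n + 1 : ℕ) : ℤ)
      rw [← ofAdd_add]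
      push_cast
      rfl

theorem fb_conj (m : ℕ) (b : A) (h : ∃ r, fb Γ q (-(m : ℤ)) b ∈ NN Γ p q r)
    (h' : ∃ r, fb Γ q 0 b ∈ NN Γ p q r) :
    (tt Γ p q) ^ m * em Γ p q (fb Γ q (-(m : ℤ)) b) h = em Γ p q (fb Γ q 0 b) h' *
      (tt Γ p q) ^ m := by
  rw [tt_pow]
  apply Subtype.ext
  apply SemidirectProduct.ext
  · show (1 : Full Γ) * shA Γ (m : ℤ) (fb Γ q (-(m : ℤ)) b) = fb Γ q 0 b * sh Γ 1 1
    rw [one_mul, map_one]
    show shA Γ (m : ℤ) (fb Γ q (-(m : ℤ)) b) = fb Γ q 0 b * 1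
    rw [mul_one]
    funext m' k
    rw [shA_apply]
    unfold fb
    have : (k - (m : ℤ) - m' = -(m : ℤ)) ↔ (k - m' = 0) := by
      constructor <;> intro h <;> linarith
    by_cases h0 : k - (m' : ℤ) = 0
    · rw [if_pos h0, if_pos (this.2 h0)]
    · rw [if_neg h0, if_neg (fun h => h0 (this.1 h))]
  · show Multiplicative.ofAdd (m : ℤ) * 1 = 1 * Multiplicative.ofAdd (m : ℤ)
    rw [mul_one, one_mul]

instance : Infinite (GG Γ p q) := by
  apply Infinite.of_injective (fun n : ℕ => (tt Γ p q) ^ n)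
  intro n m h
  have h1 : (tt Γ p q) ^ n = (tt Γ p q) ^ m := h
  rw [tt_pow, tt_pow] at h1
  have h2 : (n : ℤ) = m := congrArg (fun z : GG Γ p q =>
    (z : Full Γ ⋊[sh Γ] Multiplicative ℤ).right.toAdd) h1
  exact_mod_cast h2

/-! ### The special data -/

/-- The finite groups: permutations of pairs of vectors. -/
abbrev Gm (m : ℕ) : Type := Equiv.Perm (VV (m ^ 3 + 1))

/-- The vector used in the first map. -/
def vec {n : ℕ} (a : ZMod 3 × ZMod 3) (f : Vec n) : Vec n := a.1 • xm f + a.2 • Pi.single 0 1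

theorem vec_add {n : ℕ} (a b : ZMod 3 × ZMod 3) (f : Vec n) :
    vec (a + b) f = vec a f + vec b f := by
  unfold vec
  rw [Prod.fst_add, Prod.snd_add, add_smul, add_smul]
  abel

theorem vec_zero {n : ℕ} (f : Vec n) : vec (0 : ZMod 3 × ZMod 3) f = 0 := by
  unfold vec
  simp

/-- The group of the coefficients. -/
abbrev AA : Type := Multiplicative (ZMod 3 × ZMod 3)

/-- The first map. -/
def pp (m : ℕ) : AA →* Gm m where
  toFun a :=
    { toFun := fun z => (z.1 + vec a.toAdd z.2, z.2)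
      invFun := fun z => (z.1 - vec a.toAdd z.2, z.2)
      left_inv := fun z => by simp
      right_inv := fun z => by simp }
  map_one' := by
    apply Equiv.ext
    intro z
    show (z.1 + vec (0 : ZMod 3 × ZMod 3) z.2, z.2) = z
    rw [vec_zero, add_zero]
  map_mul' a b := by
    apply Equiv.ext
    intro z
    show (z.1 + vec (a.toAdd + b.toAdd) z.2, z.2) =
      (z.1 + vec b.toAdd z.2 + vec a.toAdd z.2, z.2)
    rw [vec_add, add_comm (vec a.toAdd z.2), ← add_assoc]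

/-- The second map. -/
def qq (m : ℕ) : AA →* Gm m where
  toFun a :=
    { toFun := fun z => (z.1, z.2 + vec a.toAdd z.1)
      invFun := fun z => (z.1, z.2 - vec a.toAdd z.1)
      left_inv := fun z => by simp
      right_inv := fun z => by simp }
  map_one' := by
    apply Equiv.ext
    intro z
    show (z.1, z.2 + vec (0 : ZMod 3 × ZMod 3) z.1) = z
    rw [vec_zero, add_zero]
  map_mul' a b := by
    apply Equiv.ext
    intro z
    show (z.1, z.2 + vec (a.toAdd + b.toAdd) z.1) =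
      (z.1, z.2 + vec b.toAdd z.1 + vec a.toAdd z.1)
    rw [vec_add, add_comm (vec a.toAdd z.1), ← add_assoc]

/-- Adding a zero in front. -/
def ez {n : ℕ} (f : Vec n) : Vec (n + 1) := fun k => if h : 0 < k.1 then f ⟨k.1 - 1, by omega⟩
  else 0

theorem ez_add {n : ℕ} (f g : Vec n) : ez (f + g) = ez f + ez g := by
  funext k
  show (if h : 0 < k.1 then (f + g) ⟨k.1 - 1, by omega⟩ else 0) =
    (if h : 0 < k.1 then f ⟨k.1 - 1, by omega⟩ else 0) +
    (if h : 0 < k.1 then g ⟨k.1 - 1, by omega⟩ else 0)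
  by_cases h : 0 < k.1
  · rw [dif_pos h, dif_pos h, dif_pos h]
    rfl
  · rw [dif_neg h, dif_neg h, dif_neg h, add_zero]

theorem ez_inj {n : ℕ} {f g : Vec n} (h : ez f = ez g) : f = g := by
  funext k
  have h1 := congrFun h k.succ
  have h2 : ∀ u : Vec n, ez u k.succ = u k := by
    intro u
    have : 0 < k.succ.1 := Nat.succ_pos _
    show (if h : 0 < k.succ.1 then u ⟨k.succ.1 - 1, _⟩ else 0) = _
    rw [dif_pos this]
    rfl
  rwa [h2, h2] at h1

theorem xm_ez {n : ℕ} (f : Vec n) : xm (ez f) = ez (xm f) := by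
  funext k
  show (if h : 0 < k.1 then (if h' : 0 < k.1 - 1 then f ⟨k.1 - 1 - 1, _⟩ else 0) else 0) =
    (if h : 0 < k.1 then (if h' : 0 < k.1 - 1 then f ⟨k.1 - 1 - 1, _⟩ else 0) else 0)
  rfl

theorem xm_single {n : ℕ} : xm (Pi.single 0 1 : Vec (n + 1)) = ez (Pi.single 0 1 : Vec n) := by
  funext k
  show (if h : 0 < k.1 then (Pi.single 0 1 : Vec (n + 1)) ⟨k.1 - 1, by omega⟩ else 0) =
    (if h : 0 < k.1 then (Pi.single 0 1 : Vec n) ⟨k.1 - 1, by omega⟩ else 0)
  by_cases h : 0 < k.1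
  · rw [dif_pos h, dif_pos h]
    by_cases h1 : k.1 = 1
    · have e1 : (⟨k.1 - 1, by omega⟩ : Fin (n + 1 + 1)) = 0 := by
        apply Fin.ext
        show k.1 - 1 = 0
        omega
      have e2 : (⟨k.1 - 1, by omega⟩ : Fin (n + 1)) = 0 := by
        apply Fin.ext
        show k.1 - 1 = 0
        omega
      rw [e1, e2, Pi.single_eq_same, Pi.single_eq_same]
    · have e1 : (⟨k.1 - 1, by omega⟩ : Fin (n + 1 + 1)) ≠ 0 := by
        intro h'
        have : k.1 - 1 = 0 := congrArg Fin.val h'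
        omega
      have e2 : (⟨k.1 - 1, by omega⟩ : Fin (n + 1)) ≠ 0 := by
        intro h'
        have : k.1 - 1 = 0 := congrArg Fin.val h'
        omega
      rw [Pi.single_eq_of_ne e1, Pi.single_eq_of_ne e2]
  · rw [dif_neg h, dif_neg h]

/-- Translation by a pair of vectors with zero in front. -/
def tr (m : ℕ) (v : VV (m ^ 3)) : Gm m where
  toFun z := (z.1 + ez v.1, z.2 + ez v.2)
  invFun z := (z.1 - ez v.1, z.2 - ez v.2)
  left_inv z := by simp
  right_inv z := by simp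

theorem tr_add (m : ℕ) (v w : VV (m ^ 3)) : tr m (v + w) = tr m v * tr m w := by
  apply Equiv.ext
  intro z
  show (z.1 + ez (v.1 + w.1), z.2 + ez (v.2 + w.2)) =
    (z.1 + ez w.1 + ez v.1, z.2 + ez w.2 + ez v.2)
  rw [ez_add, ez_add]
  apply Prod.ext
  · show z.1 + (ez v.1 + ez w.1) = z.1 + ez w.1 + ez v.1
    abel
  · show z.2 + (ez v.2 + ez w.2) = z.2 + ez w.2 + ez v.2
    abel

theorem tr_inj (m : ℕ) {v w : VV (m ^ 3)} (h : tr m v = tr m w) : v = w := by
  have h1 := congrFun (congrArg DFunLike.coe h) (0, 0)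
  have h2 : (0 + ez v.1, 0 + ez v.2) = (0 + ez w.1, 0 + ez w.2) := h1
  rw [zero_add, zero_add, zero_add, zero_add] at h2
  apply Prod.ext
  · exact ez_inj (congrArg Prod.fst h2)
  · exact ez_inj (congrArg Prod.snd h2)

theorem pp_tr (m : ℕ) (v : VV (m ^ 3)) :
    pp m (Multiplicative.ofAdd (1, 0)) * tr m v * (pp m (Multiplicative.ofAdd (1, 0)))⁻¹ =
      tr m (v.1 + xm v.2, v.2) := by
  rw [mul_inv_eq_iff_eq_mul]
  apply Equiv.ext
  intro z
  show (z.1 + ez v.1 + ((1 : ZMod 3) • xm (z.2 + ez v.2) + (0 : ZMod 3) • Pi.single 0 1),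
      z.2 + ez v.2) =
    (z.1 + ((1 : ZMod 3) • xm z.2 + (0 : ZMod 3) • Pi.single 0 1) + ez (v.1 + xm v.2),
      z.2 + ez v.2)
  rw [xm_add, xm_ez, ez_add, one_smul, one_smul, zero_smul, add_zero, add_zero]
  apply Prod.ext
  · show z.1 + ez v.1 + (xm z.2 + ez (xm v.2)) = z.1 + xm z.2 + (ez v.1 + ez (xm v.2))
    abel
  · rfl

theorem qq_tr (m : ℕ) (v : VV (m ^ 3)) :
    qq m (Multiplicative.ofAdd (1, 0)) * tr m v * (qq m (Multiplicative.ofAdd (1, 0)))⁻¹ =
      tr m (v.1, v.2 + xm v.1) := by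
  rw [mul_inv_eq_iff_eq_mul]
  apply Equiv.ext
  intro z
  show (z.1 + ez v.1, z.2 + ez v.2 + ((1 : ZMod 3) • xm (z.1 + ez v.1) +
      (0 : ZMod 3) • Pi.single 0 1)) =
    (z.1 + ez v.1, z.2 + ((1 : ZMod 3) • xm z.1 + (0 : ZMod 3) • Pi.single 0 1) +
      ez (v.2 + xm v.1))
  rw [xm_add, xm_ez, ez_add, one_smul, one_smul, zero_smul, add_zero, add_zero]
  apply Prod.ext
  · rfl
  · show z.2 + ez v.2 + (xm z.1 + ez (xm v.1)) = z.2 + xm z.1 + (ez v.2 + ez (xm v.1))
    abel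

theorem pq_comm (m : ℕ) :
    pp m (Multiplicative.ofAdd (1, 0)) * qq m (Multiplicative.ofAdd (0, 1)) *
      (pp m (Multiplicative.ofAdd (1, 0)))⁻¹ * (qq m (Multiplicative.ofAdd (0, 1)))⁻¹ =
      tr m (Pi.single 0 1, 0) := by
  rw [mul_inv_eq_iff_eq_mul, mul_inv_eq_iff_eq_mul]
  apply Equiv.ext
  intro z
  have e0 : ez (0 : Vec (m ^ 3)) = 0 := by
    have := ez_add (0 : Vec (m ^ 3)) 0
    rw [add_zero] at this
    simpa using this
  show (z.1 + ((1 : ZMod 3) • xm (z.2 + ((0 : ZMod 3) • xm z.1 + (1 : ZMod 3) • Pi.single 0 1)) +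
      (0 : ZMod 3) • Pi.single 0 1), z.2 + ((0 : ZMod 3) • xm z.1 + (1 : ZMod 3) • Pi.single 0 1)) =
    (z.1 + ((1 : ZMod 3) • xm z.2 + (0 : ZMod 3) • Pi.single 0 1) + ez (Pi.single 0 1),
      z.2 + ((0 : ZMod 3) • xm (z.1 + ((1 : ZMod 3) • xm z.2 + (0 : ZMod 3) • Pi.single 0 1)) +
      (1 : ZMod 3) • Pi.single 0 1) + ez 0)
  rw [e0]
  simp only [one_smul, zero_smul, add_zero, zero_add]
  rw [xm_add, xm_single]
  apply Prod.ext
  · show z.1 + (xm z.2 + ez (Pi.single 0 1)) = z.1 + xm z.2 + ez (Pi.single 0 1)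
    abel
  · rfl

theorem qp_comm (m : ℕ) :
    pp m (Multiplicative.ofAdd (0, 1)) * qq m (Multiplicative.ofAdd (1, 0)) *
      (pp m (Multiplicative.ofAdd (0, 1)))⁻¹ * (qq m (Multiplicative.ofAdd (1, 0)))⁻¹ =
      (tr m (0, Pi.single 0 1))⁻¹ := by
  rw [mul_inv_eq_iff_eq_mul, mul_inv_eq_iff_eq_mul]
  apply Equiv.ext
  intro z
  have e0 : ez (0 : Vec (m ^ 3)) = 0 := by
    have := ez_add (0 : Vec (m ^ 3)) 0
    rw [add_zero] at this
    simpa using this
  show (z.1 + ((0 : ZMod 3) • xm (z.2 + ((1 : ZMod 3) • xm z.1 + (0 : ZMod 3) • Pi.single 0 1)) +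
      (1 : ZMod 3) • Pi.single 0 1), z.2 + ((1 : ZMod 3) • xm z.1 + (0 : ZMod 3) • Pi.single 0 1)) =
    (z.1 + ((0 : ZMod 3) • xm z.2 + (1 : ZMod 3) • Pi.single 0 1) - ez 0,
      z.2 + ((1 : ZMod 3) • xm (z.1 + ((0 : ZMod 3) • xm z.2 + (1 : ZMod 3) • Pi.single 0 1)) +
      (0 : ZMod 3) • Pi.single 0 1) - ez (Pi.single 0 1))
  rw [e0]
  simp only [one_smul, zero_smul, add_zero, zero_add, sub_zero]
  rw [xm_add, xm_single]
  apply Prod.ext
  · rfl
  · show z.2 + xm z.1 = z.2 + (xm z.1 + ez (Pi.single 0 1)) - ez (Pi.single 0 1)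
    abel

end

end Q88.NoHeat
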