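import Pool.Agent.Q88.NoHeat.Elts

/-!
The estimate of negative definite functions on the finite subgroups.
-/

set_option linter.unusedSectionVars false

namespace Q88.NoHeat

noncomputable section

open Q88.HeatS (ND0)

/-- The group without the heat property. -/
abbrev GH : Type := GG Gm pp qq

/-- The finite subgroups. -/
def tau (m : ℕ) (v : VV (m ^ 3)) : GH := em Gm pp qq (fs Gm m (tr m v)) ⟨m, fs_mem Gm pp qq m _⟩

/-- The column elements. -/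
def ga (a : AA) : GH := em Gm pp qq (fa Gm pp a) ⟨0, fa_mem Gm pp qq a⟩

/-- The diagonal elements. -/
def gb (j : ℤ) (b : AA) : GH := em Gm pp qq (fb Gm qq j b) ⟨_, fb_mem Gm pp qq j b⟩

/-- The shift. -/
def gt : GH := tt Gm pp qq

theorem em_congr {z w : Full Gm} (h : z = w) (hz : ∃ r, z ∈ NN Gm pp qq r)
    (hw : ∃ r, w ∈ NN Gm pp qq r) : em Gm pp qq z hz = em Gm pp qq w hw := by
  subst h
  rfl

theorem ex_mul {z w : Full Gm} (h : ∃ r, z ∈ NN Gm pp qq r) (h' : ∃ r, w ∈ NN Gm pp qq r) :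
    ∃ r, z * w ∈ NN Gm pp qq r := by
  obtain ⟨r, hr⟩ := h
  obtain ⟨s, hs⟩ := h'
  exact ⟨max r s, mul_mem (NN_mono Gm pp qq (le_max_left _ _) hr)
    (NN_mono Gm pp qq (le_max_right _ _) hs)⟩

theorem ex_inv {z : Full Gm} (h : ∃ r, z ∈ NN Gm pp qq r) : ∃ r, z⁻¹ ∈ NN Gm pp qq r := by
  obtain ⟨r, hr⟩ := h
  exact ⟨r, inv_mem hr⟩

theorem tau_add (m : ℕ) (v w : VV (m ^ 3)) : tau m (v + w) = tau m v * tau m w := by
  unfold tau
  rw [← em_mul Gm pp qq _ _ _ _ (ex_mul ⟨m, fs_mem Gm pp qq m _⟩ ⟨m, fs_mem Gm pp qq m _⟩)]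
  apply em_congr
  rw [tr_add, fs_mul]

theorem tau_inj (m : ℕ) {v w : VV (m ^ 3)} (h : tau m v = tau m w) : v = w := by
  have h1 : fs Gm m (tr m v) = fs Gm m (tr m w) := congrArg (fun z : GH =>
    (z : Full Gm ⋊[sh Gm] Multiplicative ℤ).left) h
  exact tr_inj m (fs_inj Gm m h1)

theorem conj_tau (z : Full Gm) (hz : ∃ r, z ∈ NN Gm pp qq r) (m : ℕ) (v w : VV (m ^ 3))
    (h : z m 0 * tr m v * (z m 0)⁻¹ = tr m w) :
    em Gm pp qq z hz * tau m v = tau m w * em Gm pp qq z hz := by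
  unfold tau
  rw [← em_mul Gm pp qq _ _ _ _ (ex_mul hz ⟨m, fs_mem Gm pp qq m _⟩),
    ← em_mul Gm pp qq _ _ _ _ (ex_mul ⟨m, fs_mem Gm pp qq m _⟩ hz)]
  apply em_congr
  rw [conj_fs, h]

theorem ga_tau (m : ℕ) (v : VV (m ^ 3)) :
    ga (Multiplicative.ofAdd (1, 0)) * tau m v = tau m (v.1 + xm v.2, v.2) *
      ga (Multiplicative.ofAdd (1, 0)) := by
  apply conj_tau
  rw [fa_at]
  exact pp_tr m v

theorem gb_tau (m : ℕ) (v : VV (m ^ 3)) :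
    gb (-(m : ℤ)) (Multiplicative.ofAdd (1, 0)) * tau m v = tau m (v.1, v.2 + xm v.1) *
      gb (-(m : ℤ)) (Multiplicative.ofAdd (1, 0)) := by
  apply conj_tau
  rw [fb_at]
  exact qq_tr m v

theorem comm_em (m : ℕ) (a b : AA) (h) :
    em Gm pp qq (fs Gm m (pp m a * qq m b * (pp m a)⁻¹ * (qq m b)⁻¹)) h =
      ga a * gb (-(m : ℤ)) b * (ga a)⁻¹ * (gb (-(m : ℤ)) b)⁻¹ := by
  have h1 : ∃ r, fa Gm pp a ∈ NN Gm pp qq r := ⟨0, fa_mem Gm pp qq a⟩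
  have h2 : ∃ r, fb Gm qq (-(m : ℤ)) b ∈ NN Gm pp qq r := ⟨_, fb_mem Gm pp qq _ b⟩
  unfold ga gb
  rw [← em_inv Gm pp qq _ _ (ex_inv h1), ← em_inv Gm pp qq _ _ (ex_inv h2),
    ← em_mul Gm pp qq _ _ _ _ (ex_mul h1 h2),
    ← em_mul Gm pp qq _ _ _ _ (ex_mul (ex_mul h1 h2) (ex_inv h1)),
    ← em_mul Gm pp qq _ _ _ _ (ex_mul (ex_mul (ex_mul h1 h2) (ex_inv h1)) (ex_inv h2))]
  apply em_congr
  exact comm_fs Gm pp qq m a b

theorem tau_comm1 (m : ℕ) : tau m (Pi.single 0 1, 0) =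
    ga (Multiplicative.ofAdd (1, 0)) * gb (-(m : ℤ)) (Multiplicative.ofAdd (0, 1)) *
      (ga (Multiplicative.ofAdd (1, 0)))⁻¹ * (gb (-(m : ℤ)) (Multiplicative.ofAdd (0, 1)))⁻¹ := by
  rw [← comm_em m _ _ ⟨m, fs_mem Gm pp qq m _⟩]
  unfold tau
  apply em_congr
  rw [pq_comm]

theorem tau_comm2 (m : ℕ) : (tau m (0, Pi.single 0 1))⁻¹ =
    ga (Multiplicative.ofAdd (0, 1)) * gb (-(m : ℤ)) (Multiplicative.ofAdd (1, 0)) *
      (ga (Multiplicative.ofAdd (0, 1)))⁻¹ * (gb (-(m : ℤ)) (Multiplicative.ofAdd (1, 0)))⁻¹ := by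
  rw [← comm_em m _ _ ⟨m, fs_mem Gm pp qq m _⟩]
  unfold tau
  rw [← em_inv Gm pp qq _ _ (ex_inv ⟨m, fs_mem Gm pp qq m _⟩)]
  apply em_congr
  rw [qp_comm]
  apply inv_eq_of_mul_eq_one_left
  rw [← fs_mul, inv_mul_cancel]
  unfold fs
  rw [Pi.mulSingle_one, Pi.mulSingle_one]

theorem gb_conj (m : ℕ) (b : AA) : gt ^ m * gb (-(m : ℤ)) b = gb 0 b * gt ^ m :=
  fb_conj Gm pp qq m b _ _

theorem est {d : GH → ℝ} (hd : ND0 d) : ∃ C : ℝ, ∀ m : ℕ,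
    ∑ v, d (tau m v) ≤ C * ((m : ℝ) + 1) ^ 2 * Fintype.card (VV (m ^ 3)) := by
  obtain ⟨H, i1, i2, K, hK⟩ := exists_coc hd
  have hmul : ∀ g h, ‖K.b (g * h)‖ ≤ ‖K.b g‖ + ‖K.b h‖ := by
    intro g h
    rw [K.coc]
    refine (norm_add_le _ _).trans ?_
    rw [K.iso]
  have hinv := K.norm_b_inv
  have hpow : ∀ m : ℕ, ‖K.b (gt ^ m)‖ ≤ m * ‖K.b gt‖ := by
    intro m
    induction m with
    | zero =>
      rw [pow_zero, K.b_one]
      simp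
    | succ m ih =>
      rw [pow_succ]
      refine (hmul _ _).trans ?_
      push_cast
      linarith
  have hgb : ∀ (m : ℕ) b, ‖K.b (gb (-(m : ℤ)) b)‖ ≤ 2 * m * ‖K.b gt‖ + ‖K.b (gb 0 b)‖ := by
    intro m b
    have h1 : gb (-(m : ℤ)) b = (gt ^ m)⁻¹ * (gb 0 b * gt ^ m) := by
      rw [← gb_conj, inv_mul_cancel_left]
    rw [h1]
    have h2 := hmul (gt ^ m)⁻¹ (gb 0 b * gt ^ m)
    have h3 := hmul (gb 0 b) (gt ^ m)
    have h4 := hpow m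
    rw [hinv] at h2
    linarith
  set a1 := ga (Multiplicative.ofAdd (1, 0)) with ha1
  set a2 := ga (Multiplicative.ofAdd (0, 1)) with ha2
  set T := ‖K.b gt‖ with hT
  set S := 4 * ‖K.b a1‖ + 4 * ‖K.b a2‖ + 4 * ‖K.b (gb 0 (Multiplicative.ofAdd (1, 0)))‖ +
    4 * ‖K.b (gb 0 (Multiplicative.ofAdd (0, 1)))‖ + 10 * T with hS
  refine ⟨98 * S ^ 2, ?_⟩
  intro m
  have hm : (0 : ℝ) ≤ m := by positivity
  have n1 := norm_nonneg (K.b a1)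
  have n2 := norm_nonneg (K.b a2)
  have n3 := norm_nonneg (K.b (gb 0 (Multiplicative.ofAdd (1, 0))))
  have n4 := norm_nonneg (K.b (gb 0 (Multiplicative.ofAdd (0, 1))))
  have n5 : 0 ≤ T := norm_nonneg _
  have hcomm : ∀ x y : GH, ‖K.b (x * y * x⁻¹ * y⁻¹)‖ ≤ 2 * ‖K.b x‖ + 2 * ‖K.b y‖ := by
    intro x y
    have h1 := hmul (x * y * x⁻¹) y⁻¹
    have h2 := hmul (x * y) x⁻¹
    have h3 := hmul x y
    rw [hinv] at h1 h2
    linarith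
  have k1 : ‖K.b (tau m (Pi.single 0 1, 0))‖ ≤ 2 * ‖K.b a1‖ +
      2 * (2 * m * T + ‖K.b (gb 0 (Multiplicative.ofAdd (0, 1)))‖) := by
    rw [tau_comm1]
    refine (hcomm _ _).trans ?_
    have := hgb m (Multiplicative.ofAdd (0, 1))
    linarith
  have k2 : ‖K.b (tau m (0, Pi.single 0 1))‖ ≤ 2 * ‖K.b a2‖ +
      2 * (2 * m * T + ‖K.b (gb 0 (Multiplicative.ofAdd (1, 0)))‖) := by
    rw [← hinv, tau_comm2]
    refine (hcomm _ _).trans ?_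
    have := hgb m (Multiplicative.ofAdd (1, 0))
    linarith
  have k3 := hgb m (Multiplicative.ofAdd (1, 0))
  have hL : ‖K.b (tau m (Pi.single 0 1, 0))‖ + ‖K.b (tau m (0, Pi.single 0 1))‖ + ‖K.b a1‖ +
      ‖K.b (gb (-(m : ℤ)) (Multiplicative.ofAdd (1, 0)))‖ ≤ S * (m + 1) := by
    have e1 : S * (m + 1) = S + 10 * (m * T) + m * (4 * ‖K.b a1‖ + 4 * ‖K.b a2‖ +
        4 * ‖K.b (gb 0 (Multiplicative.ofAdd (1, 0)))‖ +
        4 * ‖K.b (gb 0 (Multiplicative.ofAdd (0, 1)))‖) := by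
      rw [hS]
      ring
    have e2 : 0 ≤ m * (4 * ‖K.b a1‖ + 4 * ‖K.b a2‖ +
        4 * ‖K.b (gb 0 (Multiplicative.ofAdd (1, 0)))‖ +
        4 * ‖K.b (gb 0 (Multiplicative.ofAdd (0, 1)))‖) := by positivity
    have e3 : 0 ≤ (m : ℝ) * T := by positivity
    rw [e1]
    have e4 : (2 : ℝ) * (2 * m * T) = 4 * (m * T) := by ring
    have e5 : (2 : ℝ) * m * T = 2 * (m * T) := by ring
    rw [hS]
    linarith
  have key := avg_bound K (tau m) (tau_add m) a1 (gb (-(m : ℤ)) (Multiplicative.ofAdd (1, 0)))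
    (ga_tau m) (gb_tau m) (S * (m + 1)) hL
  simp_rw [hK] at key
  calc ∑ v, d (tau m v) ≤ 98 * (S * (m + 1)) ^ 2 * Fintype.card (VV (m ^ 3)) := key
    _ = _ := by ring

end

end Q88.NoHeat
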