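import Pool.Agent.Q88.NoHeat.Stmt
import Pool.Agent.Q88.NoHeat.Est
import Pool.Agent.Q88.NoHeat.Ana
import Pool.Agent.Q88.Heat.Bridge

/-!
The group `GH` has the Haagerup property and does not have the heat property.
-/

open scoped InnerProductSpace

set_option linter.unusedSectionVars false

namespace Q88.NoHeat

noncomputable section

open Q88.HeatS (ND0)

/-- The growth argument. -/
theorem growth (C K : ℝ) (h : ∀ m : ℕ, Real.exp (-(K * ((m : ℝ) + 1) ^ 2)) *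
    (3 ^ (m ^ 3 + 1) * 3 ^ (m ^ 3 + 1)) ≤ C * 3 ^ (m ^ 3 + 1)) : False := by
  set a := |K| with ha
  have ha0 : 0 ≤ a := abs_nonneg K
  obtain ⟨m, hm⟩ := exists_nat_gt (max (4 * a + 1) C)
  have hm1 : 4 * a + 1 < (m : ℝ) := (le_max_left _ _).trans_lt hm
  have hm2 : C < (m : ℝ) := (le_max_right _ _).trans_lt hm
  have hm3 : (1 : ℝ) ≤ m := by linarith
  have h1 := h m
  have h2 : (0 : ℝ) < 3 ^ (m ^ 3 + 1) := by positivity
  have h3 : Real.exp (-(K * ((m : ℝ) + 1) ^ 2)) * 3 ^ (m ^ 3 + 1) ≤ C := by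
    have : (Real.exp (-(K * ((m : ℝ) + 1) ^ 2)) * 3 ^ (m ^ 3 + 1)) * 3 ^ (m ^ 3 + 1) ≤
        C * 3 ^ (m ^ 3 + 1) := by
      rw [mul_assoc]
      exact h1
    exact le_of_mul_le_mul_right this h2
  have h4 : Real.exp ((m : ℝ) ^ 3) ≤ (3 : ℝ) ^ (m ^ 3 + 1) := by
    have e1 : Real.exp ((m : ℝ) ^ 3) = (Real.exp 1) ^ (m ^ 3) := by
      rw [← Real.exp_nat_mul]
      congr 1
      push_cast
      ring
    have e2 : Real.exp 1 ≤ 3 := by
      have := Real.exp_one_lt_d9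
      linarith
    rw [e1]
    calc (Real.exp 1) ^ (m ^ 3) ≤ (3 : ℝ) ^ (m ^ 3) := pow_le_pow_left₀ (Real.exp_pos 1).le e2 _
      _ ≤ (3 : ℝ) ^ (m ^ 3 + 1) := pow_le_pow_right₀ (by norm_num) (by omega)
  have h5 : Real.exp (-(a * ((m : ℝ) + 1) ^ 2)) ≤ Real.exp (-(K * ((m : ℝ) + 1) ^ 2)) := by
    apply Real.exp_le_exp.2
    have : K * ((m : ℝ) + 1) ^ 2 ≤ a * ((m : ℝ) + 1) ^ 2 :=
      mul_le_mul_of_nonneg_right (le_abs_self K) (by positivity)
    linarith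
  have h6 : Real.exp (-(a * ((m : ℝ) + 1) ^ 2)) * Real.exp ((m : ℝ) ^ 3) ≤ C := by
    refine le_trans ?_ h3
    exact mul_le_mul h5 h4 (Real.exp_pos _).le (Real.exp_pos _).le
  rw [← Real.exp_add] at h6
  have h7 : (m : ℝ) ≤ -(a * ((m : ℝ) + 1) ^ 2) + (m : ℝ) ^ 3 := by
    have e1 : ((m : ℝ) + 1) ^ 2 ≤ 4 * (m : ℝ) ^ 2 := by nlinarith
    have e2 : a * ((m : ℝ) + 1) ^ 2 ≤ a * (4 * (m : ℝ) ^ 2) := mul_le_mul_of_nonneg_left e1 ha0
    have e3 : (m : ℝ) ^ 3 - 4 * a * (m : ℝ) ^ 2 = (m : ℝ) ^ 2 * (m - 4 * a) := by ring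
    have e4 : (m : ℝ) ^ 2 * 1 ≤ (m : ℝ) ^ 2 * (m - 4 * a) :=
      mul_le_mul_of_nonneg_left (by linarith) (by positivity)
    nlinarith
  have h8 : Real.exp (m : ℝ) ≤ C := (Real.exp_le_exp.2 h7).trans h6
  have h9 := Real.add_one_le_exp (m : ℝ)
  linarith

theorem no_heat_raw {d : GH → ℝ} (hd : ND0 d) {t : ℝ} (ht : 0 < t) :
    ¬ ∀ x ∈ Heat.redC (s1 GH), ∃ y ∈ Heat.CF (s1 GH), ∀ g,
      Heat.hat y g = (Real.exp (-(t * d g)) : ℂ) * Heat.hat x g := by
  intro h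
  obtain ⟨C, hC⟩ := blow h
  obtain ⟨K, hK⟩ := est hd
  apply growth C (t * K)
  intro m
  have h1 := hC (m ^ 3) (tau m) (tau_add m) (fun v w h => tau_inj m h)
  have h2 := jensen (fun v => t * d (tau m v)) (t * K * ((m : ℝ) + 1) ^ 2) (by
    rw [← Finset.mul_sum]
    have := mul_le_mul_of_nonneg_left (hK m) ht.le
    linarith)
  rw [card_VV] at h2
  push_cast at h2
  exact h2.trans h1

theorem norm_hat_le {G : Type*} [Group G] (x : Heat.L2 G →L[ℂ] Heat.L2 G) (g : G) :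
    ‖Heat.hat x g‖ ≤ ‖x‖ := by
  have h1 : Heat.hat x g = ⟪(Heat.dl g : Heat.L2 G), x (Heat.dl 1)⟫_ℂ := by
    rw [Heat.inner_dl]
    rfl
  rw [h1]
  refine (norm_inner_le_norm _ _).trans ?_
  rw [Heat.norm_dl, one_mul]
  have := x.le_opNorm (Heat.dl 1)
  rwa [Heat.norm_dl, mul_one] at this

end

end Q88.NoHeat

namespace Q88.HeatS

noncomputable section

variable {G : Type*} [Group G]

theorem reg_raw {Λ : G → Op G} (h : IsReg Λ) : Λ = Heat.lam (NoHeat.s1 G) := by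
  funext g
  apply eq_of_dl
  intro k
  rw [NoHeat.lam1_dl]
  exact h g k

theorem exists_reg : ∃ Λ : G → Op G, IsReg Λ :=
  ⟨Heat.lam (NoHeat.s1 G), fun g h => NoHeat.lam1_dl g h⟩

theorem hat_add (x y : Op G) (g : G) : hat (x + y) g = hat x g + hat y g := rfl

theorem hat_smul (c : ℂ) (x : Op G) (g : G) : hat (c • x) g = c * hat x g := rfl

theorem norm_hat_le (x : Op G) (g : G) : ‖hat x g‖ ≤ ‖x‖ := NoHeat.norm_hat_le x g

theorem hat_heat {Λ : G → Op G} {d : G → ℝ} {t : ℝ} {M : Op G → Op G} (hΛ : IsReg Λ)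
    (hM : IsHeatC Λ d t M) {x : Op G} (hx : x ∈ redC Λ) (g : G) :
    hat (M x) g = (Real.exp (-(t * d g)) : ℂ) * hat x g := by
  classical
  have hlam : ∀ h, hat (Λ h) g = if h = g then 1 else 0 := by
    intro h
    rw [reg_raw hΛ]
    show (Heat.lam (NoHeat.s1 G) h (Heat.dl 1)) g = _
    rw [NoHeat.lam1_dl, mul_one, Heat.dl_apply]
    simp [eq_comm]
  have hspan : ∀ z ∈ spanL Λ, z ∈ redC Λ ∧
      hat (M z) g = (Real.exp (-(t * d g)) : ℂ) * hat z g := by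
    intro z hz
    unfold spanL at hz
    induction hz using Submodule.span_induction with
    | mem z hz =>
      obtain ⟨h, rfl⟩ := hz
      refine ⟨subset_closure (Submodule.subset_span ⟨h, rfl⟩), ?_⟩
      rw [hM.lam, hat_smul, hlam]
      split_ifs with e
      · rw [e]
      · rw [mul_zero, mul_zero]
    | zero =>
      have h0 : (0 : Op G) ∈ redC Λ := subset_closure (Submodule.zero_mem _)
      refine ⟨h0, ?_⟩
      have h1 := hM.smul 0 0 h0
      rw [zero_smul, zero_smul] at h1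
      rw [h1]
      have h2 : hat (0 : Op G) g = 0 := rfl
      rw [h2, mul_zero]
    | add z w hz hw h1 h2 =>
      refine ⟨subset_closure (Submodule.add_mem _ hz hw), ?_⟩
      rw [hM.add z h1.1 w h2.1, hat_add, hat_add, h1.2, h2.2, mul_add]
    | smul c z hz h1 =>
      refine ⟨subset_closure (Submodule.smul_mem _ _ hz), ?_⟩
      rw [hM.smul c z h1.1, hat_smul, hat_smul, h1.2]
      ring
  obtain ⟨K, hK⟩ := hM.bdd
  by_contra hne
  have hpos : 0 < ‖hat (M x) g - (Real.exp (-(t * d g)) : ℂ) * hat x g‖ :=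
    norm_pos_iff.2 (sub_ne_zero.2 hne)
  set δ := ‖hat (M x) g - (Real.exp (-(t * d g)) : ℂ) * hat x g‖ with hδ
  set E := Real.exp (-(t * d g)) with hE
  have hE0 : 0 < E := Real.exp_pos _
  have hKE : 0 < |K| + E + 1 := by positivity
  obtain ⟨z, hz, hxz⟩ := Metric.mem_closure_iff.1 hx (δ / (|K| + E + 1)) (div_pos hpos hKE)
  rw [dist_eq_norm] at hxz
  obtain ⟨hz1, hz2⟩ := hspan z hz
  have hmz : (-1 : ℂ) • z ∈ redC Λ := subset_closure (Submodule.smul_mem _ _ hz)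
  have hxz' : x - z ∈ redC Λ := by
    have : x - z ∈ (spanL Λ).topologicalClosure :=
      Submodule.sub_mem _ hx (Submodule.le_topologicalClosure _ hz)
    exact this
  have h1 : M x - M z = M (x - z) := by
    have e1 : x = (x - z) + z := by abel
    have e2 := hM.add (x - z) hxz' z hz1
    rw [← e1] at e2
    rw [e2]
    abel
  have h2 : hat (M x) g - (E : ℂ) * hat x g = hat (M (x - z)) g - (E : ℂ) * hat (x - z) g := by
    have e1 : hat (M (x - z)) g = hat (M x) g - hat (M z) g := by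
      rw [← h1]
      rfl
    have e2 : hat (x - z) g = hat x g - hat z g := rfl
    rw [e1, e2, hz2]
    ring
  have h3 : δ ≤ (|K| + E) * ‖x - z‖ := by
    rw [hδ, h2]
    refine (norm_sub_le _ _).trans ?_
    have e1 := (norm_hat_le (M (x - z)) g).trans (hK _ hxz')
    have e2 := norm_hat_le (x - z) g
    have e3 : ‖(E : ℂ) * hat (x - z) g‖ = E * ‖hat (x - z) g‖ := by
      rw [norm_mul, Complex.norm_real, Real.norm_eq_abs, abs_of_pos hE0]
    have e4 : K * ‖x - z‖ ≤ |K| * ‖x - z‖ :=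
      mul_le_mul_of_nonneg_right (le_abs_self K) (norm_nonneg _)
    have e5 : E * ‖hat (x - z) g‖ ≤ E * ‖x - z‖ := mul_le_mul_of_nonneg_left e2 hE0.le
    rw [e3]
    linarith
  have h4 : (|K| + E) * ‖x - z‖ < δ := by
    have e1 : (|K| + E + 1) * ‖x - z‖ < δ := by
      rw [mul_comm]
      exact (lt_div_iff₀ hKE).1 hxz
    have e2 := norm_nonneg (x - z)
    linarith
  linarith

theorem no_heat : ∃ (G : Type) (_ : Group G) (_ : Countable G) (_ : Infinite G),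
    Amenable G ∧ Haagerup G ∧ (∃ Λ : G → Op G, IsReg Λ) ∧
    ∀ Λ : G → Op G, IsReg Λ → ∀ d : G → ℝ, ND0 d → ∀ t : ℝ, 0 < t → ∃ x ∈ redC Λ,
      (¬ ∃ y ∈ CF Λ, ∀ g, hat y g = (Real.exp (-(t * d g)) : ℂ) * hat x g) ∧
      ∀ M, IsHeatC Λ d t M → M x ∉ CF Λ := by
  have hH : Haagerup NoHeat.GH := NoHeat.GG_haagerup NoHeat.Gm NoHeat.pp NoHeat.qq
  have hcount : Countable NoHeat.GH := by
    obtain ⟨d, _, hd⟩ := hH
    rw [← Set.countable_univ_iff]
    have : (Set.univ : Set NoHeat.GH) = ⋃ n : ℕ, {g | d g ≤ n} := by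
      ext g
      simp only [Set.mem_univ, Set.mem_iUnion, true_iff]
      obtain ⟨n, hn⟩ := exists_nat_ge (d g)
      exact ⟨n, hn⟩
    rw [this]
    exact Set.countable_iUnion fun n => (hd n).countable
  refine ⟨NoHeat.GH, inferInstance, hcount, inferInstance,
    NoHeat.GG_amenable NoHeat.Gm NoHeat.pp NoHeat.qq, hH, exists_reg, ?_⟩
  intro Λ hΛ d hd t ht
  have e := reg_raw hΛ
  by_contra hcon
  push Not at hcon
  apply NoHeat.no_heat_raw hd ht
  intro x hx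
  have hx' : x ∈ redC Λ := by
    rw [e]
    exact hx
  by_contra hno
  have hno' : ¬ ∃ y ∈ CF Λ, ∀ g, hat y g = (Real.exp (-(t * d g)) : ℂ) * hat x g := by
    rintro ⟨y, hy, hyx⟩
    apply hno
    rw [e] at hy
    exact ⟨y, hy, hyx⟩
  obtain ⟨M, hM, hMx⟩ := hcon x hx' (fun y hy => by
    by_contra h
    push Not at h
    exact hno' ⟨y, hy, h⟩)
  exact hno' ⟨M x, hMx, hat_heat hΛ hM hx'⟩

end

end Q88.HeatS
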