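import Pool.Agent.Q88.Heat.Stmt

/-!
The affine isometric action attached to a negative definite function.
-/

open scoped InnerProductSpace ComplexConjugate

namespace Q88.NoHeat

noncomputable section

open Q88.HeatS (ND0)

universe u

variable {G : Type u} [Group G]

/-- An affine isometric action, given by its linear part and its cocycle. -/
structure Coc (G : Type*) [Group G] (H : Type*) [SeminormedAddCommGroup H]
    [InnerProductSpace ℂ H] where
  U : G → H →ₗ[ℂ] H
  b : G → H
  mul : ∀ g h x, U (g * h) x = U g (U h x)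
  one : ∀ x, U 1 x = x
  iso : ∀ g x, ‖U g x‖ = ‖x‖
  coc : ∀ g h, b (g * h) = b g + U g (b h)

/-- The form on finitely supported functions. -/
def B (d : G → ℝ) (f h : G →₀ ℂ) : ℂ :=
  f.sum fun g a => h.sum fun g' a' => conj a * a' * ((-(d (g⁻¹ * g')) / 2 : ℝ) : ℂ)

theorem B_add_left (d : G → ℝ) (f f' h : G →₀ ℂ) : B d (f + f') h = B d f h + B d f' h := by
  unfold B
  apply Finsupp.sum_add_index'
  · intro g
    simp
  · intro g a a'
    rw [← Finsupp.sum_add]
    apply Finsupp.sum_congr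
    intro g' _
    rw [map_add]
    ring

theorem B_smul_left (d : G → ℝ) (c : ℂ) (f h : G →₀ ℂ) : B d (c • f) h = conj c * B d f h := by
  unfold B
  rw [Finsupp.sum_smul_index (by intro g; simp), Finsupp.mul_sum]
  apply Finsupp.sum_congr
  intro g _
  rw [Finsupp.mul_sum]
  apply Finsupp.sum_congr
  intro g' _
  rw [map_mul]
  ring

theorem B_symm {d : G → ℝ} (hd : ∀ g, d g⁻¹ = d g) (f h : G →₀ ℂ) : conj (B d h f) = B d f h := by
  unfold B
  rw [Finsupp.sum, map_sum]
  have : ∀ g' ∈ h.support, conj ((f.sum fun g a => conj (h g') * a *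
      ((-(d (g'⁻¹ * g)) / 2 : ℝ) : ℂ))) = f.sum fun g a => conj a * h g' *
      ((-(d (g⁻¹ * g')) / 2 : ℝ) : ℂ) := by
    intro g' _
    rw [Finsupp.sum, map_sum]
    apply Finset.sum_congr rfl
    intro g _
    rw [map_mul, map_mul, Complex.conj_conj, Complex.conj_ofReal, ← hd (g'⁻¹ * g)]
    have : (g'⁻¹ * g)⁻¹ = g⁻¹ * g' := by group
    rw [this]
    ring
  rw [Finset.sum_congr rfl this]
  unfold Finsupp.sum
  rw [Finset.sum_comm]

theorem B_nonneg {d : G → ℝ} (hd : ND0 d) (f : G →₀ ℂ) (hf : (f.sum fun _ a => a) = 0) :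
    0 ≤ (B d f f).re := by
  classical
  let e := f.support.equivFin.symm
  have h := hd.neg f.support.card (fun i => (e i : G)) (fun i => f (e i)) (by
    rw [Equiv.sum_comp e (fun x : f.support => f (x : G)), Finset.sum_coe_sort f.support
      (fun x => f x)]
    exact hf)
  have h2 : B d f f = -(1 / 2 : ℂ) * ∑ i, ∑ j, star (f (e i)) * f (e j) *
      (d (((e i : G))⁻¹ * (e j : G)) : ℂ) := by
    unfold B Finsupp.sum
    have h3 : ∀ i, ∑ j, star (f (e i)) * f (e j) * (d (((e i : G))⁻¹ * (e j : G)) : ℂ) =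
        ∑ g' ∈ f.support, star (f (e i)) * f g' * (d (((e i : G))⁻¹ * g') : ℂ) := by
      intro i
      rw [Equiv.sum_comp e (fun x : f.support => star (f (e i)) * f (x : G) *
        (d (((e i : G))⁻¹ * (x : G)) : ℂ)), Finset.sum_coe_sort f.support
        (fun g' => star (f (e i)) * f g' * (d (((e i : G))⁻¹ * g') : ℂ))]
    rw [Finset.sum_congr rfl (fun i _ => h3 i)]
    rw [Equiv.sum_comp e (fun x : f.support => ∑ g' ∈ f.support, star (f (x : G)) * f g' *
        (d (((x : G))⁻¹ * g') : ℂ)), Finset.sum_coe_sort f.support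
        (fun g => ∑ g' ∈ f.support, star (f g) * f g' * (d (g⁻¹ * g') : ℂ)), Finset.mul_sum]
    apply Finset.sum_congr rfl
    intro g _
    rw [Finset.mul_sum]
    apply Finset.sum_congr rfl
    intro g' _
    push_cast
    show conj (f g) * f g' * (-(d (g⁻¹ * g') : ℂ) / 2) = _
    rw [Complex.star_def]
    ring
  rw [h2]
  have h4 : ∀ z : ℂ, z.re ≤ 0 → 0 ≤ (-(1 / 2 : ℂ) * z).re := by
    intro z hz
    have : (-(1 / 2 : ℂ)) = ((-(1 / 2) : ℝ) : ℂ) := by push_cast; ring
    rw [this, Complex.re_ofReal_mul]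
    linarith
  exact h4 _ h

/-- The functions with sum zero. -/
def Aug (G : Type*) : Submodule ℂ (G →₀ ℂ) where
  carrier := {f | (f.sum fun _ a => a) = 0}
  add_mem' := by
    intro f h hf hh
    show ((f + h).sum fun _ a => a) = 0
    rw [Finsupp.sum_add_index' (by intro g; rfl) (by intro g a b; rfl)]
    have hf' : (f.sum fun _ a => a) = 0 := hf
    have hh' : (h.sum fun _ a => a) = 0 := hh
    rw [hf', hh', add_zero]
  zero_mem' := by
    show ((0 : G →₀ ℂ).sum fun _ a => a) = 0
    exact Finsupp.sum_zero_index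
  smul_mem' := by
    intro c f hf
    show ((c • f).sum fun _ a => a) = 0
    have hf' : (f.sum fun _ a => a) = 0 := hf
    rw [Finsupp.sum_smul_index (by intro g; rfl), ← Finsupp.mul_sum, hf', mul_zero]

/-- The pre-inner product. -/
@[reducible] def core {d : G → ℝ} (hd : ND0 d) : PreInnerProductSpace.Core ℂ (Aug G) where
  inner f h := B d f h
  conj_inner_symm _ _ := B_symm hd.inv _ _
  re_inner_nonneg f := B_nonneg hd _ f.2
  add_left _ _ _ := B_add_left d _ _ _
  smul_left _ _ _ := B_smul_left d _ _ _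

/-- Left translation on finitely supported functions. -/
def tl (g : G) : (G →₀ ℂ) →ₗ[ℂ] (G →₀ ℂ) := Finsupp.lmapDomain ℂ ℂ (fun x => g * x)

theorem tl_apply (g : G) (f : G →₀ ℂ) : tl g f = Finsupp.mapDomain (fun x => g * x) f := rfl

theorem tl_mem (g : G) (f : G →₀ ℂ) (hf : f ∈ Aug G) : tl g f ∈ Aug G := by
  show ((Finsupp.mapDomain (fun x => g * x) f).sum fun _ a => a) = 0
  rw [Finsupp.sum_mapDomain_index (by intro g; rfl) (by intro g a b; rfl)]
  exact hf

theorem B_tl (d : G → ℝ) (g : G) (f h : G →₀ ℂ) : B d (tl g f) (tl g h) = B d f h := by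
  rw [tl_apply, tl_apply]
  unfold B
  rw [Finsupp.sum_mapDomain_index (by intro g; simp) (by
    intro k a a'
    rw [← Finsupp.sum_add]
    apply Finsupp.sum_congr
    intro g' _
    rw [map_add]
    ring)]
  apply Finsupp.sum_congr
  intro k _
  rw [Finsupp.sum_mapDomain_index (by intro g; simp) (by
    intro k a a'
    ring)]
  apply Finsupp.sum_congr
  intro l _
  have : (g * k)⁻¹ * (g * l) = k⁻¹ * l := by group
  rw [this]

/-- Left translation on the functions with sum zero. -/
def UU (g : G) : Aug G →ₗ[ℂ] Aug G := (tl g).restrict (fun f hf => tl_mem g f hf)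

/-- The cocycle. -/
def bb (g : G) : Aug G := ⟨Finsupp.single g 1 - Finsupp.single 1 1, by
  show ((Finsupp.single g 1 - Finsupp.single 1 1 : G →₀ ℂ).sum fun _ a => a) = 0
  rw [Finsupp.sum_sub_index (by intro g a b; rfl), Finsupp.sum_single_index rfl,
    Finsupp.sum_single_index rfl, sub_self]⟩

theorem exists_coc {d : G → ℝ} (hd : ND0 d) : ∃ (H : Type u) (_ : SeminormedAddCommGroup H)
    (_ : InnerProductSpace ℂ H) (C : Coc G H), ∀ g, ‖C.b g‖ ^ 2 = d g := by
  let c := core hd
  let i1 : SeminormedAddCommGroup (Aug G) :=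
    @InnerProductSpace.Core.toSeminormedAddCommGroup ℂ (Aug G) _ _ _ c
  let i2 : @InnerProductSpace ℂ (Aug G) _ i1 := InnerProductSpace.ofCore c
  have hn : ∀ x : Aug G, @norm _ i1.toNorm x ^ 2 = (B d x x).re := by
    intro x
    exact @InnerProductSpace.norm_sq_eq_re_inner ℂ (Aug G) _ i1 i2 x
  refine ⟨Aug G, i1, i2, ⟨UU, bb, ?_, ?_, ?_, ?_⟩, ?_⟩
  · intro g h x
    apply Subtype.ext
    show Finsupp.mapDomain (fun x => (g * h) * x) (x : G →₀ ℂ) =
      Finsupp.mapDomain (fun x => g * x) (Finsupp.mapDomain (fun x => h * x) (x : G →₀ ℂ))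
    rw [← Finsupp.mapDomain_comp]
    congr 1
    funext y
    show g * h * y = g * (h * y)
    rw [mul_assoc]
  · intro x
    apply Subtype.ext
    show Finsupp.mapDomain (fun x => 1 * x) (x : G →₀ ℂ) = x
    have : (fun x : G => 1 * x) = id := by
      funext y
      simp
    rw [this, Finsupp.mapDomain_id]
  · intro g x
    have h1 := hn (UU g x)
    have h2 := hn x
    have h3 : B d (UU g x : G →₀ ℂ) (UU g x : G →₀ ℂ) = B d (x : G →₀ ℂ) (x : G →₀ ℂ) :=
      B_tl d g _ _
    rw [h3, ← h2] at h1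
    exact (sq_eq_sq₀ (@norm_nonneg _ i1.toSeminormedAddGroup _)
      (@norm_nonneg _ i1.toSeminormedAddGroup _)).1 h1
  · intro g h
    apply Subtype.ext
    show Finsupp.single (g * h) (1 : ℂ) - Finsupp.single 1 1 =
      (Finsupp.single g (1 : ℂ) - Finsupp.single 1 1) +
      tl g (Finsupp.single h (1 : ℂ) - Finsupp.single 1 1)
    rw [map_sub, tl_apply, tl_apply, Finsupp.mapDomain_single, Finsupp.mapDomain_single, mul_one]
    abel
  · intro g
    rw [hn]
    show (B d (Finsupp.single g 1 - Finsupp.single 1 1) (Finsupp.single g 1 -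
      Finsupp.single 1 1)).re = d g
    have hs : ∀ g h : G, B d (Finsupp.single g 1) (Finsupp.single h 1) =
        ((-(d (g⁻¹ * h)) / 2 : ℝ) : ℂ) := by
      intro g h
      unfold B
      rw [Finsupp.sum_single_index (by simp), Finsupp.sum_single_index (by simp)]
      simp
    have hl : ∀ f f' h : G →₀ ℂ, B d (f - f') h = B d f h - B d f' h := by
      intro f f' h
      have := B_add_left d (f - f') f' h
      rw [sub_add_cancel] at this
      rw [this]
      ring
    have hr : ∀ f f' h : G →₀ ℂ, B d h (f - f') = B d h f - B d h f' := by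
      intro f f' h
      rw [← B_symm hd.inv, hl, map_sub, B_symm hd.inv, B_symm hd.inv]
    rw [hl, hr, hr, hs, hs, hs, hs, inv_mul_cancel, inv_mul_cancel, mul_one, inv_one, one_mul,
      hd.one, hd.inv]
    have : (((-0 / 2 : ℝ) : ℂ) - ((-(d g) / 2 : ℝ) : ℂ) - (((-(d g) / 2 : ℝ) : ℂ) -
        ((-0 / 2 : ℝ) : ℂ))) = ((d g : ℝ) : ℂ) := by
      push_cast
      ring
    rw [this, Complex.ofReal_re]

end

end Q88.NoHeat
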