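import Pool.Agent.Q88.NoHeat.Avg

/-!
The amenable group: a locally finite group of doubly indexed sequences, extended by the shift.
-/

set_option linter.unusedSectionVars false

namespace Q88.NoHeat

noncomputable section

variable (Γ : ℕ → Type) [∀ m, Group (Γ m)] [∀ m, Finite (Γ m)] {A : Type} [Group A] [Finite A]
  (p q : ∀ m, A →* Γ m)

/-- All doubly indexed sequences. -/
abbrev Full := ∀ m : ℕ, ℤ → Γ m

/-- The shift by `j`. -/
def shA (j : ℤ) : MulAut (Full Γ) where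
  toFun γ m k := γ m (k - j)
  invFun γ m k := γ m (k + j)
  left_inv γ := by
    funext m k
    show γ m (k + j - j) = γ m k
    rw [add_sub_cancel_right]
  right_inv γ := by
    funext m k
    show γ m (k - j + j) = γ m k
    rw [sub_add_cancel]
  map_mul' γ γ' := rfl

theorem shA_apply (j : ℤ) (γ : Full Γ) (m : ℕ) (k : ℤ) : shA Γ j γ m k = γ m (k - j) := rfl

theorem shA_zero (γ : Full Γ) : shA Γ 0 γ = γ := by
  funext m k
  rw [shA_apply, sub_zero]

theorem shA_add (i j : ℤ) (γ : Full Γ) : shA Γ (i + j) γ = shA Γ i (shA Γ j γ) := by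
  funext m k
  rw [shA_apply, shA_apply, shA_apply, sub_sub]

/-- The shift action. -/
def sh : Multiplicative ℤ →* MulAut (Full Γ) where
  toFun j := shA Γ j.toAdd
  map_one' := by
    apply MulEquiv.ext
    intro γ
    exact shA_zero Γ γ
  map_mul' i j := by
    apply MulEquiv.ext
    intro γ
    exact shA_add Γ _ _ γ

theorem sh_apply (j : Multiplicative ℤ) (γ : Full Γ) : sh Γ j γ = shA Γ j.toAdd γ := rfl

/-- The `r`-th finite subgroup. -/
def NN (r : ℕ) : Subgroup (Full Γ) where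
  carrier := {γ | ∃ a b : ℤ → A, (∀ k, (r : ℤ) < |k| → a k = 1) ∧ (∀ k, (r : ℤ) < |k| → b k = 1) ∧
    (∀ m : ℕ, 2 * r < m → ∀ k, γ m k = p m (a k) * q m (b (k - m))) ∧
    ∀ m : ℕ, m ≤ 2 * r → ∀ k, (3 * r : ℤ) < |k| → γ m k = 1}
  one_mem' := by
    refine ⟨fun _ => 1, fun _ => 1, fun _ _ => rfl, fun _ _ => rfl, ?_, fun _ _ _ _ => rfl⟩
    intro m _ k
    show (1 : Γ m) = _
    rw [map_one, map_one, mul_one]
  mul_mem' := by
    rintro γ γ' ⟨a, b, h1, h2, h3, h4⟩ ⟨a', b', h1', h2', h3', h4'⟩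
    refine ⟨fun k => a k * a' k, fun k => b k * b' k, ?_, ?_, ?_, ?_⟩
    · intro k hk
      show a k * a' k = 1
      rw [h1 k hk, h1' k hk, mul_one]
    · intro k hk
      show b k * b' k = 1
      rw [h2 k hk, h2' k hk, mul_one]
    · intro m hm k
      show γ m k * γ' m k = p m (a k * a' k) * q m (b (k - m) * b' (k - m))
      rw [h3 m hm, h3' m hm, map_mul, map_mul]
      by_cases hk : (r : ℤ) < |k|
      · rw [h1 k hk, h1' k hk, map_one]
        group
      · have hk' : (r : ℤ) < |k - m| := by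
          push Not at hk
          rw [abs_le] at hk
          rw [lt_abs]
          right
          omega
        rw [h2 _ hk', h2' _ hk', map_one]
        group
    · intro m hm k hk
      show γ m k * γ' m k = 1
      rw [h4 m hm k hk, h4' m hm k hk, mul_one]
  inv_mem' := by
    rintro γ ⟨a, b, h1, h2, h3, h4⟩
    refine ⟨fun k => (a k)⁻¹, fun k => (b k)⁻¹, ?_, ?_, ?_, ?_⟩
    · intro k hk
      show (a k)⁻¹ = 1
      rw [h1 k hk, inv_one]
    · intro k hk
      show (b k)⁻¹ = 1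
      rw [h2 k hk, inv_one]
    · intro m hm k
      show (γ m k)⁻¹ = p m (a k)⁻¹ * q m (b (k - m))⁻¹
      rw [h3 m hm, map_inv, map_inv]
      by_cases hk : (r : ℤ) < |k|
      · rw [h1 k hk, map_one]
        group
      · have hk' : (r : ℤ) < |k - m| := by
          push Not at hk
          rw [abs_le] at hk
          rw [lt_abs]
          right
          omega
        rw [h2 _ hk', map_one]
        group
    · intro m hm k hk
      show (γ m k)⁻¹ = 1
      rw [h4 m hm k hk, inv_one]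

theorem NN_shift (r : ℕ) (j : ℤ) {s : ℕ} (hs : (r : ℤ) + |j| ≤ s) {γ : Full Γ}
    (h : γ ∈ NN Γ p q r) : shA Γ j γ ∈ NN Γ p q s := by
  obtain ⟨a, b, h1, h2, h3, h4⟩ := h
  have hj1 : j ≤ |j| := le_abs_self j
  have hj2 : -j ≤ |j| := neg_le_abs j
  refine ⟨fun k => a (k - j), fun k => b (k - j), ?_, ?_, ?_, ?_⟩
  · intro k hk
    apply h1
    rw [lt_abs] at hk ⊢
    omega
  · intro k hk
    apply h2
    rw [lt_abs] at hk ⊢
    omega
  · intro m hm k
    rw [shA_apply, h3 m (by omega)]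
    show _ = p m (a (k - j)) * q m (b (k - m - j))
    congr 3
    ring
  · intro m hm k hk
    rw [shA_apply]
    by_cases hm' : m ≤ 2 * r
    · apply h4 m hm'
      rw [lt_abs] at hk ⊢
      omega
    · rw [h3 m (by omega), h1 _ (by rw [lt_abs] at hk ⊢; omega),
        h2 _ (by rw [lt_abs] at hk ⊢; omega), map_one, map_one, mul_one]

theorem NN_mono {r s : ℕ} (h : r ≤ s) : NN Γ p q r ≤ NN Γ p q s := by
  intro γ hγ
  have := NN_shift Γ p q r 0 (s := s) (by simpa using h) hγ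
  rwa [shA_zero] at this

theorem NN_finite (r : ℕ) : (NN Γ p q r : Set (Full Γ)).Finite := by
  classical
  let I := Finset.Icc (-(r : ℤ)) r
  let J := Finset.Icc (-(3 * r : ℤ)) (3 * r)
  let ex : (I → A) → ℤ → A := fun a k => if h : k ∈ I then a ⟨k, h⟩ else 1
  let Φ : ((I → A) × (I → A)) × (∀ m : Fin (2 * r + 1), J → Γ m) → Full Γ := fun z m k =>
    if h : m < 2 * r + 1 then (if h' : k ∈ J then z.2 ⟨m, h⟩ ⟨k, h'⟩ else 1)
    else p m (ex z.1.1 k) * q m (ex z.1.2 (k - m))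
  apply Set.Finite.subset (Set.finite_range Φ)
  rintro γ ⟨a, b, h1, h2, h3, h4⟩
  refine ⟨⟨⟨fun k => a k, fun k => b k⟩, fun m k => γ m k⟩, ?_⟩
  have hex : ∀ c : ℤ → A, (∀ k, (r : ℤ) < |k| → c k = 1) → ∀ k, ex (fun k => c k) k = c k := by
    intro c hc k
    by_cases h : k ∈ I
    · show (if h : k ∈ I then _ else _) = _
      rw [dif_pos h]
    · show (if h : k ∈ I then _ else _) = _
      rw [dif_neg h, hc]
      by_contra h'
      apply h
      rw [Finset.mem_Icc]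
      exact abs_le.1 (not_lt.1 h')
  funext m k
  show (if h : m < 2 * r + 1 then (if h' : k ∈ J then _ else _) else _) = _
  by_cases hm : m < 2 * r + 1
  · rw [dif_pos hm]
    by_cases hk : k ∈ J
    · rw [dif_pos hk]
    · rw [dif_neg hk, h4 m (by omega)]
      by_contra h'
      apply hk
      rw [Finset.mem_Icc]
      exact abs_le.1 (not_lt.1 h')
  · rw [dif_neg hm, h3 m (by omega), hex a h1, hex b h2]

/-- The group. -/
def GG : Subgroup (Full Γ ⋊[sh Γ] Multiplicative ℤ) where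
  carrier := {x | ∃ r, x.left ∈ NN Γ p q r}
  one_mem' := ⟨0, one_mem _⟩
  mul_mem' := by
    rintro x y ⟨r, hr⟩ ⟨s, hs⟩
    refine ⟨max r (s + (x.right.toAdd).natAbs), ?_⟩
    show (x * y).left ∈ _
    rw [SemidirectProduct.mul_left]
    apply mul_mem
    · exact NN_mono Γ p q (le_max_left _ _) hr
    · apply NN_shift Γ p q s _ _ hs
      have := le_max_right r (s + (x.right.toAdd).natAbs)
      have h2 : ((x.right.toAdd).natAbs : ℤ) = |x.right.toAdd| := Int.natCast_natAbs _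
      rw [← h2]
      exact_mod_cast this
  inv_mem' := by
    rintro x ⟨r, hr⟩
    refine ⟨r + (x.right.toAdd).natAbs, ?_⟩
    show (x⁻¹).left ∈ _
    rw [SemidirectProduct.inv_left]
    apply NN_shift Γ p q r _ _ (inv_mem hr)
    have h2 : ((x.right.toAdd).natAbs : ℤ) = |x.right.toAdd| := Int.natCast_natAbs _
    rw [toAdd_inv, abs_neg, ← h2]
    push_cast
    rfl

/-- The points of the Følner sets, as elements of the big group. -/
def pt (k : ℤ) (γ : Full Γ) : Full Γ ⋊[sh Γ] Multiplicative ℤ :=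
  ⟨shA Γ k γ, Multiplicative.ofAdd k⟩

theorem pt_mem {r : ℕ} {γ : Full Γ} (h : γ ∈ NN Γ p q r) (k : ℤ) : pt Γ k γ ∈ GG Γ p q :=
  ⟨r + k.natAbs, NN_shift Γ p q r k (by push_cast; exact le_refl _) h⟩

theorem pt_inj {k k' : ℤ} {γ γ' : Full Γ} (h : pt Γ k γ = pt Γ k' γ') : k = k' ∧ γ = γ' := by
  have h1 : k = k' := congrArg (fun z => z.right.toAdd) h
  subst h1
  have h2 : shA Γ k γ = shA Γ k γ' := congrArg SemidirectProduct.left h
  exact ⟨rfl, (shA Γ k).injective h2⟩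

theorem mul_pt (x : Full Γ ⋊[sh Γ] Multiplicative ℤ) (k : ℤ) (γ : Full Γ) :
    x * pt Γ k γ = pt Γ (x.right.toAdd + k) (shA Γ (-(x.right.toAdd + k)) x.left * γ) := by
  apply SemidirectProduct.ext
  · rw [SemidirectProduct.mul_left]
    show x.left * shA Γ x.right.toAdd (shA Γ k γ) = shA Γ (x.right.toAdd + k)
      (shA Γ (-(x.right.toAdd + k)) x.left * γ)
    rw [map_mul, ← shA_add Γ (x.right.toAdd + k) (-(x.right.toAdd + k)), add_neg_cancel,
      shA_zero, ← shA_add]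
  · rw [SemidirectProduct.mul_right]
    rfl

open Classical in
/-- The Følner sets. -/
def Fo (j : ℕ) : Finset (GG Γ p q) :=
  (Finset.range j ×ˢ (NN_finite Γ p q (2 * j)).toFinset).attach.image fun z =>
    ⟨pt Γ z.1.1 z.1.2, pt_mem Γ p q (r := 2 * j)
      (by
        have h := (Finset.mem_product.1 z.2).2
        rw [Set.Finite.mem_toFinset] at h
        exact h) _⟩

theorem mem_Fo (j : ℕ) (x : GG Γ p q) : x ∈ Fo Γ p q j ↔ ∃ k : ℕ, k < j ∧ ∃ γ ∈ NN Γ p q (2 * j),
    (x : Full Γ ⋊[sh Γ] Multiplicative ℤ) = pt Γ k γ := by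
  classical
  unfold Fo
  rw [Finset.mem_image]
  constructor
  · rintro ⟨⟨⟨k, γ⟩, hz⟩, _, rfl⟩
    rw [Finset.mem_product, Finset.mem_range, Set.Finite.mem_toFinset] at hz
    exact ⟨k, hz.1, γ, hz.2, rfl⟩
  · rintro ⟨k, hk, γ, hγ, h⟩
    refine ⟨⟨⟨k, γ⟩, ?_⟩, Finset.mem_attach _ _, ?_⟩
    · rw [Finset.mem_product, Finset.mem_range, Set.Finite.mem_toFinset]
      exact ⟨hk, hγ⟩
    · apply Subtype.ext
      exact h.symm

theorem card_Fo (j : ℕ) : (Fo Γ p q j).card = j * (NN_finite Γ p q (2 * j)).toFinset.card := by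
  classical
  unfold Fo
  rw [Finset.card_image_of_injective, Finset.card_attach, Finset.card_product, Finset.card_range]
  rintro ⟨⟨k, γ⟩, hz⟩ ⟨⟨k', γ'⟩, hz'⟩ h
  have h1 : pt Γ k γ = pt Γ k' γ' := congrArg (fun z : GG Γ p q => (z : Full Γ ⋊[sh Γ] _)) h
  obtain ⟨h2, h3⟩ := pt_inj Γ h1
  apply Subtype.ext
  apply Prod.ext
  · exact_mod_cast h2
  · exact h3

theorem Fo_nonempty (j : ℕ) (hj : 0 < j) : (Fo Γ p q j).Nonempty := by
  refine ⟨⟨pt Γ 0 1, pt_mem Γ p q (one_mem (NN Γ p q 0)) 0⟩, ?_⟩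
  rw [mem_Fo]
  exact ⟨0, hj, 1, one_mem _, rfl⟩

theorem Fo_out [DecidableEq (GG Γ p q)] (g : GG Γ p q) : ∃ C r : ℕ, ∀ j ≥ r,
    out (Fo Γ p q j) g * j ≤ C * (Fo Γ p q j).card := by
  classical
  obtain ⟨⟨n0, k0⟩, r0, hr0⟩ := g
  change n0 ∈ NN Γ p q r0 at hr0
  set c : ℤ := k0.toAdd with hc
  refine ⟨2 * c.natAbs, r0, ?_⟩
  intro j hj
  rw [card_Fo]
  have key : out (Fo Γ p q j) ⟨⟨n0, k0⟩, r0, hr0⟩ ≤
      (((Finset.Ico (j - c.natAbs : ℤ) j ∪ Finset.Ico (0 : ℤ) c.natAbs) ×ˢ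
        (NN_finite Γ p q (2 * j)).toFinset)).card := by
    unfold out
    apply Finset.card_le_card_of_injOn (fun x : GG Γ p q =>
      ((x : Full Γ ⋊[sh Γ] Multiplicative ℤ).right.toAdd,
        shA Γ (-(x : Full Γ ⋊[sh Γ] Multiplicative ℤ).right.toAdd)
          (x : Full Γ ⋊[sh Γ] Multiplicative ℤ).left))
    · intro x hx
      rw [Finset.mem_coe, Finset.mem_filter, mem_Fo] at hx
      obtain ⟨⟨k, hk, γ, hγ, hx1⟩, hx2⟩ := hx
      have e1 : (x : Full Γ ⋊[sh Γ] Multiplicative ℤ).right.toAdd = k := by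
        rw [hx1]
        rfl
      have e2 : shA Γ (-(x : Full Γ ⋊[sh Γ] Multiplicative ℤ).right.toAdd)
          (x : Full Γ ⋊[sh Γ] Multiplicative ℤ).left = γ := by
        rw [e1, hx1]
        show shA Γ (-(k : ℤ)) (shA Γ k γ) = γ
        rw [← shA_add, neg_add_cancel, shA_zero]
      show (_, _) ∈ (_ : Set _)
      rw [Finset.mem_coe, Finset.mem_product]
      refine ⟨?_, ?_⟩
      · show (x : Full Γ ⋊[sh Γ] Multiplicative ℤ).right.toAdd ∈ _
        rw [e1, Finset.mem_union, Finset.mem_Ico, Finset.mem_Ico]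
        by_contra hcon
        apply hx2
        rw [mem_Fo]
        have hlow : 0 ≤ c + k := by omega
        have hhigh : c + k < j := by omega
        refine ⟨(c + k).toNat, by omega, shA Γ (-(c + k)) n0 * γ, ?_, ?_⟩
        · apply mul_mem _ hγ
          apply NN_shift Γ p q r0 _ _ hr0
          rw [abs_neg, abs_of_nonneg hlow]
          push_cast
          omega
        · show (⟨n0, k0⟩ : Full Γ ⋊[sh Γ] Multiplicative ℤ) *
            (x : Full Γ ⋊[sh Γ] Multiplicative ℤ) = _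
          rw [hx1, mul_pt]
          have : (((c + k).toNat : ℕ) : ℤ) = c + k := Int.toNat_of_nonneg hlow
          rw [this]
      · show shA Γ (-(x : Full Γ ⋊[sh Γ] Multiplicative ℤ).right.toAdd)
          (x : Full Γ ⋊[sh Γ] Multiplicative ℤ).left ∈ _
        rw [e2, Set.Finite.mem_toFinset]
        exact hγ
    · intro x _ y _ hxy
      have h1 : (x : Full Γ ⋊[sh Γ] Multiplicative ℤ).right.toAdd =
          (y : Full Γ ⋊[sh Γ] Multiplicative ℤ).right.toAdd := congrArg Prod.fst hxy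
      have h2 : shA Γ (-(x : Full Γ ⋊[sh Γ] Multiplicative ℤ).right.toAdd)
          (x : Full Γ ⋊[sh Γ] Multiplicative ℤ).left =
          shA Γ (-(y : Full Γ ⋊[sh Γ] Multiplicative ℤ).right.toAdd)
          (y : Full Γ ⋊[sh Γ] Multiplicative ℤ).left := congrArg Prod.snd hxy
      rw [h1] at h2
      apply Subtype.ext
      apply SemidirectProduct.ext
      · exact (shA Γ _).injective h2
      · exact h1
  rw [Finset.card_product] at key
  have h3 : (Finset.Ico (j - c.natAbs : ℤ) j ∪ Finset.Ico (0 : ℤ) c.natAbs).card ≤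
      2 * c.natAbs := by
    refine (Finset.card_union_le _ _).trans ?_
    rw [Int.card_Ico, Int.card_Ico]
    omega
  calc out (Fo Γ p q j) ⟨⟨n0, k0⟩, r0, hr0⟩ * j ≤
      ((2 * c.natAbs) * (NN_finite Γ p q (2 * j)).toFinset.card) * j :=
        Nat.mul_le_mul_right _ (key.trans (Nat.mul_le_mul_right _ h3))
    _ = _ := by ring

theorem GG_haagerup : ∃ d : GG Γ p q → ℝ, HeatS.ND0 d ∧ ∀ s, {g | d g ≤ s}.Finite := by
  classical
  apply haagerup (fun i => Fo Γ p q (4 ^ i)) (fun i => Fo_nonempty Γ p q _ (by positivity))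
  intro g
  obtain ⟨C, r, h⟩ := Fo_out Γ p q g
  refine ⟨C, r, ?_⟩
  intro i hi
  have h1 : r ≤ 4 ^ i := hi.trans (Nat.lt_pow_self (by norm_num)).le
  have h2 := h (4 ^ i) h1
  exact_mod_cast h2

theorem GG_amenable : ∃ F : ℕ → Finset (GG Γ p q), (∀ n, (F n).Nonempty) ∧
    ∀ g : GG Γ p q, ∀ ε : ℝ, 0 < ε → ∃ N, ∀ n ≥ N,
      ({x | x ∈ F n ∧ g * x ∉ F n}.ncard : ℝ) ≤ ε * (F n).card := by
  classical
  refine ⟨fun n => Fo Γ p q (n + 1), fun n => Fo_nonempty Γ p q _ (by omega), ?_⟩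
  intro g ε hε
  obtain ⟨C, r, h⟩ := Fo_out Γ p q g
  obtain ⟨M, hM⟩ := exists_nat_gt (C / ε : ℝ)
  refine ⟨max r M, ?_⟩
  intro n hn
  have h1 : r ≤ n + 1 := by
    have := (le_max_left r M).trans hn
    omega
  have h2 : (out (Fo Γ p q (n + 1)) g : ℝ) * ((n + 1 : ℕ) : ℝ) ≤
      C * (Fo Γ p q (n + 1)).card := by exact_mod_cast h (n + 1) h1
  have h3 : {x | x ∈ Fo Γ p q (n + 1) ∧ g * x ∉ Fo Γ p q (n + 1)}.ncard =
      out (Fo Γ p q (n + 1)) g := by
    unfold out
    rw [← Set.ncard_coe_finset]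
    congr 1
    ext x
    simp
  rw [h3]
  have h4 : (C : ℝ) ≤ ε * ((n + 1 : ℕ) : ℝ) := by
    have h5 : (M : ℝ) ≤ n := by exact_mod_cast (le_max_right r M).trans hn
    have h6 : (C : ℝ) < M * ε := (div_lt_iff₀ hε).1 hM
    push_cast
    nlinarith
  have h5 : (0 : ℝ) < ((n + 1 : ℕ) : ℝ) := by positivity
  have h6 : (0 : ℝ) ≤ (Fo Γ p q (n + 1)).card := by positivity
  by_contra hcon
  push Not at hcon
  nlinarith

end

end Q88.NoHeat
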