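import Pool.Agent.Q88.NoHeat.GNS

/-!
Spectral projections of a finite abelian subgroup.
-/

open scoped InnerProductSpace ComplexConjugate

set_option linter.unusedSectionVars false

namespace Q88.NoHeat

noncomputable section

variable {G : Type*} [Group G] {H : Type*} [SeminormedAddCommGroup H] [InnerProductSpace ℂ H]

/-- A perfect pairing of finite abelian groups with values in the circle. -/
structure Pairing (V C : Type*) [AddCommGroup V] [Fintype V] [Fintype C] where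
  e : C → V → ℂ
  add : ∀ c v w, e c (v + w) = e c v * e c w
  nrm : ∀ c v, ‖e c v‖ = 1
  sep : ∀ c c', c ≠ c' → ∃ v, e c v ≠ e c' v
  tot : ∀ v, v ≠ 0 → ∑ c, e c v = 0
  crd : Fintype.card C = Fintype.card V
  c0 : C
  triv : ∀ v, e c0 v = 1

variable {V C : Type*} [AddCommGroup V] [Fintype V] [Fintype C] [DecidableEq C]

theorem Pairing.zero (e : Pairing V C) (c : C) : e.e c 0 = 1 := by
  have h := e.add c 0 0
  rw [add_zero] at h
  have h2 : e.e c 0 ≠ 0 := by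
    intro h'
    have := e.nrm c 0
    rw [h', norm_zero] at this
    norm_num at this
  exact mul_left_cancel₀ h2 (by rw [← h, mul_one])

theorem Pairing.neg_mul (e : Pairing V C) (c : C) (v : V) : e.e c (-v) * e.e c v = 1 := by
  rw [← e.add, neg_add_cancel, e.zero]

/-- The data: an affine isometric action and a finite abelian subgroup. -/
structure Dat (G : Type*) [Group G] (H : Type*) [SeminormedAddCommGroup H]
    [InnerProductSpace ℂ H] (V C : Type*) [AddCommGroup V] [Fintype V] [Fintype C] where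
  K : Coc G H
  P : Pairing V C
  τ : V → G
  hτ : ∀ v w, τ (v + w) = τ v * τ w

variable (D : Dat G H V C)

theorem Dat.tau_zero : D.τ 0 = 1 := by
  have h := D.hτ 0 0
  rw [add_zero] at h
  exact (mul_eq_left.1 h.symm)

theorem Coc.b_one (K : Coc G H) : K.b 1 = 0 := by
  have h := K.coc 1 1
  rw [mul_one, K.one] at h
  simpa using h

theorem Coc.iso_sub (K : Coc G H) (g : G) (x y : H) : ‖K.U g x - K.U g y‖ = ‖x - y‖ := by
  rw [← map_sub, K.iso]

theorem Coc.inner_U (K : Coc G H) (g : G) (x y : H) : ⟪K.U g x, K.U g y⟫_ℂ = ⟪x, y⟫_ℂ :=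
  (LinearMap.norm_map_iff_inner_map_map (𝕜 := ℂ) (K.U g)).1 (K.iso g) x y

/-- The spectral projection. -/
def Dat.pr (c : C) : H →ₗ[ℂ] H := ((Fintype.card V : ℂ)⁻¹) • ∑ v, D.P.e c (-v) • D.K.U (D.τ v)

theorem Dat.pr_apply (c : C) (x : H) :
    D.pr c x = ((Fintype.card V : ℂ)⁻¹) • ∑ v, D.P.e c (-v) • D.K.U (D.τ v) x := by
  unfold Dat.pr
  rw [LinearMap.smul_apply, LinearMap.sum_apply]
  rfl

theorem Dat.U_pr (c : C) (w : V) (x : H) : D.K.U (D.τ w) (D.pr c x) = D.P.e c w • D.pr c x := by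
  rw [D.pr_apply, map_smul, map_sum, smul_comm]
  congr 1
  rw [Finset.smul_sum]
  refine Fintype.sum_equiv (Equiv.addLeft w) _ _ fun v => ?_
  rw [map_smul, ← D.K.mul, ← D.hτ, smul_smul]
  congr 1
  show D.P.e c (-v) = D.P.e c w * D.P.e c (-(w + v))
  rw [← D.P.add]
  congr 1
  abel

theorem Dat.pr_U (c : C) (w : V) (x : H) : D.pr c (D.K.U (D.τ w) x) = D.P.e c w • D.pr c x := by
  rw [← D.U_pr, D.pr_apply, D.pr_apply, map_smul, map_sum]
  congr 1
  apply Finset.sum_congr rfl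
  intro v _
  rw [map_smul, ← D.K.mul, ← D.K.mul, ← D.hτ, ← D.hτ, add_comm]

theorem Dat.orth {c c' : C} (h : c ≠ c') (x y : H) : ⟪D.pr c x, D.pr c' y⟫_ℂ = 0 := by
  obtain ⟨v, hv⟩ := D.P.sep c c' h
  have h1 := D.K.inner_U (D.τ v) (D.pr c x) (D.pr c' y)
  rw [D.U_pr, D.U_pr, inner_smul_left, inner_smul_right] at h1
  by_contra h2
  have h3 : conj (D.P.e c v) * D.P.e c' v = 1 := by
    apply mul_right_cancel₀ h2
    rw [one_mul, mul_assoc, h1]
  apply hv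
  have h4 : conj (D.P.e c v) * D.P.e c v = 1 := by
    rw [← Complex.normSq_eq_conj_mul_self, Complex.normSq_eq_norm_sq, D.P.nrm]
    norm_num
  have h5 : conj (D.P.e c v) ≠ 0 := by
    intro h6
    rw [h6, zero_mul] at h4
    norm_num at h4
  exact mul_left_cancel₀ h5 (h4.trans h3.symm)

theorem Dat.sum_pr (x : H) : ∑ c, D.pr c x = x := by
  classical
  have h1 : ∑ c, D.pr c x = ((Fintype.card V : ℂ)⁻¹) • ∑ v, (∑ c, D.P.e c (-v)) •
      D.K.U (D.τ v) x := by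
    simp_rw [D.pr_apply]
    rw [← Finset.smul_sum, Finset.sum_comm]
    congr 1
    apply Finset.sum_congr rfl
    intro v _
    rw [Finset.sum_smul]
  rw [h1, Finset.sum_eq_single (0 : V)]
  · rw [neg_zero, D.tau_zero, D.K.one]
    simp_rw [D.P.zero]
    rw [Finset.sum_const, Finset.card_univ, D.P.crd, smul_smul]
    have : (Fintype.card V : ℂ) ≠ 0 := by
      have : Fintype.card V ≠ 0 := Fintype.card_ne_zero
      exact_mod_cast this
    rw [nsmul_eq_mul, mul_one, inv_mul_cancel₀ this, one_smul]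
  · intro v _ hv
    rw [D.P.tot _ (neg_ne_zero.2 hv), zero_smul]
  · intro h
    exact absurd (Finset.mem_univ _) h

/-- The spectral projection of a set of characters. -/
def Dat.ps (S : Finset C) (x : H) : H := ∑ c ∈ S, D.pr c x

theorem sum_orth {ι : Type*} [DecidableEq ι] (y : ι → H) (h : ∀ i j, i ≠ j → ⟪y i, y j⟫_ℂ = 0)
    (S : Finset ι) : ‖∑ i ∈ S, y i‖ ^ 2 = ∑ i ∈ S, ‖y i‖ ^ 2 := by
  induction S using Finset.induction_on with
  | empty => simp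
  | insert a S ha ih =>
    rw [Finset.sum_insert ha, Finset.sum_insert ha, ← ih, @norm_add_sq ℂ, inner_sum]
    have : ∑ i ∈ S, ⟪y a, y i⟫_ℂ = 0 := by
      apply Finset.sum_eq_zero
      intro i hi
      apply h
      rintro rfl
      exact ha hi
    rw [this]
    simp

theorem Dat.norm_ps (S : Finset C) (x : H) : ‖D.ps S x‖ ^ 2 = ∑ c ∈ S, ‖D.pr c x‖ ^ 2 :=
  sum_orth _ (fun _ _ h => D.orth h x x) S

theorem Dat.norm_all (x : H) : ‖x‖ ^ 2 = ∑ c, ‖D.pr c x‖ ^ 2 := by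
  rw [← D.norm_ps]
  unfold Dat.ps
  rw [D.sum_pr]

theorem Dat.ps_mono {S T : Finset C} (h : S ⊆ T) (x : H) : ‖D.ps S x‖ ≤ ‖D.ps T x‖ := by
  have : ‖D.ps S x‖ ^ 2 ≤ ‖D.ps T x‖ ^ 2 := by
    rw [D.norm_ps, D.norm_ps]
    exact Finset.sum_le_sum_of_subset_of_nonneg h fun _ _ _ => by positivity
  exact (pow_le_pow_iff_left₀ (norm_nonneg _) (norm_nonneg _) (by norm_num)).1 this

theorem Dat.ps_le (S : Finset C) (x : H) : ‖D.ps S x‖ ≤ ‖x‖ := by
  have h := D.ps_mono (Finset.subset_univ S) x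
  unfold Dat.ps at h ⊢
  rwa [D.sum_pr] at h

theorem Dat.ps_add (S : Finset C) (x y : H) : D.ps S (x + y) = D.ps S x + D.ps S y := by
  unfold Dat.ps
  rw [← Finset.sum_add_distrib]
  apply Finset.sum_congr rfl
  intro c _
  rw [map_add]

/-- Conjugation by an element that normalizes the subgroup. -/
theorem Dat.pr_conj (g : G) (θ : V ≃+ V) (T : C ≃ C) (hg : ∀ v, g * D.τ v = D.τ (θ v) * g)
    (hT : ∀ c v, D.P.e (T c) (θ v) = D.P.e c v) (c : C) (x : H) :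
    D.pr (T c) (D.K.U g x) = D.K.U g (D.pr c x) := by
  rw [D.pr_apply, D.pr_apply, map_smul, map_sum]
  congr 1
  symm
  refine Fintype.sum_equiv θ.toEquiv _ _ fun v => ?_
  show _ = D.P.e (T c) (-(θ v)) • D.K.U (D.τ (θ v)) (D.K.U g x)
  rw [map_smul, ← D.K.mul, ← D.K.mul, hg, ← map_neg, hT]

theorem Dat.ps_conj (g : G) (θ : V ≃+ V) (T : C ≃ C) (hg : ∀ v, g * D.τ v = D.τ (θ v) * g)
    (hT : ∀ c v, D.P.e (T c) (θ v) = D.P.e c v) (S : Finset C) (x : H) :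
    D.ps (S.map T.toEmbedding) (D.K.U g x) = D.K.U g (D.ps S x) := by
  unfold Dat.ps
  rw [map_sum, Finset.sum_map]
  apply Finset.sum_congr rfl
  intro c _
  exact D.pr_conj g θ T hg hT c x

/-- The vector that implements the cocycle on the subgroup. -/
def Dat.xi : H := -(((Fintype.card V : ℂ)⁻¹) • ∑ v, D.K.b (D.τ v))

theorem card_ne (V : Type*) [AddCommGroup V] [Fintype V] : (Fintype.card V : ℂ) ≠ 0 := by
  have : Fintype.card V ≠ 0 := Fintype.card_ne_zero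
  exact_mod_cast this

theorem Dat.U_xi (g : G) (θ : V ≃+ V) (hg : ∀ v, g * D.τ v = D.τ (θ v) * g) :
    D.K.U g D.xi = D.xi + D.K.b g - D.pr D.P.c0 (D.K.b g) := by
  have h1 : ∀ v, D.K.U g (D.K.b (D.τ v)) = D.K.b (D.τ (θ v)) + D.K.U (D.τ (θ v)) (D.K.b g) -
      D.K.b g := by
    intro v
    rw [← D.K.coc, ← hg, D.K.coc]
    abel
  unfold Dat.xi
  rw [map_neg, map_smul, map_sum, Finset.sum_congr rfl (fun v _ => h1 v),
    Finset.sum_sub_distrib, Finset.sum_add_distrib, smul_sub, smul_add, Finset.sum_const,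
    Finset.card_univ, D.pr_apply]
  have h2 : ∑ v, D.K.b (D.τ (θ v)) = ∑ v, D.K.b (D.τ v) :=
    Equiv.sum_comp θ.toEquiv (fun v => D.K.b (D.τ v))
  have h3 : ∑ v, D.K.U (D.τ (θ v)) (D.K.b g) = ∑ v, D.P.e D.P.c0 (-v) •
      D.K.U (D.τ v) (D.K.b g) := by
    rw [← Equiv.sum_comp θ.toEquiv (fun v => D.P.e D.P.c0 (-v) • D.K.U (D.τ v) (D.K.b g))]
    apply Finset.sum_congr rfl
    intro v _
    rw [D.P.triv, one_smul]
    rfl
  have h4 : ((Fintype.card V : ℂ)⁻¹) • (Fintype.card V) • D.K.b g = D.K.b g := by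
    rw [← Nat.cast_smul_eq_nsmul ℂ, smul_smul, inv_mul_cancel₀ (card_ne V), one_smul]
  rw [h2, h3, h4]
  abel

theorem Dat.U_xi_tau (v : V) : D.K.U (D.τ v) D.xi = D.xi + D.K.b (D.τ v) := by
  have h1 : ∀ w, D.K.U (D.τ v) (D.K.b (D.τ w)) = D.K.b (D.τ (v + w)) - D.K.b (D.τ v) := by
    intro w
    rw [D.hτ, D.K.coc]
    abel
  unfold Dat.xi
  rw [map_neg, map_smul, map_sum, Finset.sum_congr rfl (fun v _ => h1 v),
    Finset.sum_sub_distrib, smul_sub, Finset.sum_const, Finset.card_univ]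
  have h2 : ∑ w, D.K.b (D.τ (v + w)) = ∑ v, D.K.b (D.τ v) :=
    Equiv.sum_comp (Equiv.addLeft v) (fun v => D.K.b (D.τ v))
  have h4 : ((Fintype.card V : ℂ)⁻¹) • (Fintype.card V) • D.K.b (D.τ v) = D.K.b (D.τ v) := by
    rw [← Nat.cast_smul_eq_nsmul ℂ, smul_smul, inv_mul_cancel₀ (card_ne V), one_smul]
  rw [h2, h4]
  abel

theorem Dat.pr_zero_xi : D.pr D.P.c0 D.xi = 0 := by
  rw [D.pr_apply]
  have h1 : ∀ v, D.P.e D.P.c0 (-v) • D.K.U (D.τ v) D.xi = D.xi + D.K.b (D.τ v) := by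
    intro v
    rw [D.P.triv, one_smul, D.U_xi_tau]
  rw [Finset.sum_congr rfl (fun v _ => h1 v), Finset.sum_add_distrib, smul_add, Finset.sum_const,
    Finset.card_univ]
  have h4 : ((Fintype.card V : ℂ)⁻¹) • (Fintype.card V) • D.xi = D.xi := by
    rw [← Nat.cast_smul_eq_nsmul ℂ, smul_smul, inv_mul_cancel₀ (card_ne V), one_smul]
  rw [h4]
  unfold Dat.xi
  abel

theorem Dat.sum_b : ∑ v, ‖D.K.b (D.τ v)‖ ^ 2 = 2 * (Fintype.card V) * ‖D.xi‖ ^ 2 := by
  have h1 : ∀ v, ‖D.K.b (D.τ v)‖ ^ 2 = 2 * ‖D.xi‖ ^ 2 - 2 * (⟪D.xi, D.K.U (D.τ v) D.xi⟫_ℂ).re := by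
    intro v
    have h2 : D.K.b (D.τ v) = D.K.U (D.τ v) D.xi - D.xi := by
      rw [D.U_xi_tau]
      abel
    rw [h2, @norm_sub_sq ℂ, D.K.iso]
    have h3 : (⟪D.K.U (D.τ v) D.xi, D.xi⟫_ℂ).re = (⟪D.xi, D.K.U (D.τ v) D.xi⟫_ℂ).re :=
      inner_re_symm (𝕜 := ℂ) _ _
    show ‖D.xi‖ ^ 2 - 2 * (⟪D.K.U (D.τ v) D.xi, D.xi⟫_ℂ).re + ‖D.xi‖ ^ 2 = _
    rw [h3]
    ring
  rw [Finset.sum_congr rfl (fun v _ => h1 v), Finset.sum_sub_distrib, Finset.sum_const,
    Finset.card_univ, ← Finset.mul_sum]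
  have h3 : ∑ v, (⟪D.xi, D.K.U (D.τ v) D.xi⟫_ℂ).re = 0 := by
    rw [← Complex.re_sum, ← inner_sum]
    have h4 := D.pr_zero_xi
    rw [D.pr_apply] at h4
    have h5 : ∑ v, D.K.U (D.τ v) D.xi = 0 := by
      have h6 := congrArg (fun z => (Fintype.card V : ℂ) • z) h4
      simp only [smul_smul, mul_inv_cancel₀ (card_ne V), one_smul, smul_zero] at h6
      rw [← h6]
      apply Finset.sum_congr rfl
      intro v _
      rw [D.P.triv, one_smul]
    rw [h5, inner_zero_right, Complex.zero_re]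
  rw [h3, nsmul_eq_mul]
  ring

theorem Dat.ps_add_conj (g : G) (θ : V ≃+ V) (T : C ≃ C) (hg : ∀ v, g * D.τ v = D.τ (θ v) * g)
    (hT : ∀ c v, D.P.e (T c) (θ v) = D.P.e c v) (S : Finset C) (hS : T.symm D.P.c0 ∉ S) :
    ‖D.ps S D.xi‖ ≤ ‖D.ps (S.map T.toEmbedding) D.xi‖ + ‖D.K.b g‖ := by
  have h0 : ∀ c x, c ≠ D.P.c0 → D.pr c (D.pr D.P.c0 x) = 0 := by
    intro c x hc
    rw [D.pr_apply c]
    have : ∀ v, D.P.e c (-v) • D.K.U (D.τ v) (D.pr D.P.c0 x) = D.P.e c (-v) • D.pr D.P.c0 x := by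
      intro v
      rw [D.U_pr, D.P.triv, one_smul]
    rw [Finset.sum_congr rfl (fun v _ => this v), ← Finset.sum_smul]
    have h3 : ∑ v, D.P.e c (-v) = 0 := by
      obtain ⟨w, hw⟩ := D.P.sep c D.P.c0 hc
      rw [D.P.triv] at hw
      have h4 : D.P.e c w * ∑ v, D.P.e c (-v) = ∑ v, D.P.e c (-v) := by
        rw [Finset.mul_sum]
        refine Fintype.sum_equiv (Equiv.subRight w) _ _ fun v => ?_
        show D.P.e c w * D.P.e c (-v) = D.P.e c (-(v - w))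
        rw [← D.P.add]
        congr 1
        abel
      have h5 : (D.P.e c w - 1) * ∑ v, D.P.e c (-v) = 0 := by
        rw [sub_mul, h4, one_mul, sub_self]
      rcases mul_eq_zero.1 h5 with h | h
      · exact absurd (sub_eq_zero.1 h) hw
      · exact h
    rw [h3, zero_smul, smul_zero]
  have h1 := D.U_xi g θ hg
  have h2 : D.xi = D.K.U g D.xi + (-(D.K.b g) + D.pr D.P.c0 (D.K.b g)) := by
    rw [h1]
    abel
  have h3 : D.ps (S.map T.toEmbedding) (D.pr D.P.c0 (D.K.b g)) = 0 := by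
    unfold Dat.ps
    apply Finset.sum_eq_zero
    intro c hc
    apply h0
    rintro rfl
    rw [Finset.mem_map] at hc
    obtain ⟨c', hc', h'⟩ := hc
    apply hS
    have : T c' = D.P.c0 := h'
    rw [← this, Equiv.symm_apply_apply]
    exact hc'
  have h4 : D.ps (S.map T.toEmbedding) (D.K.U g D.xi) =
      D.ps (S.map T.toEmbedding) D.xi + D.ps (S.map T.toEmbedding) (D.K.b g) := by
    rw [h1, sub_eq_add_neg, D.ps_add, D.ps_add]
    have : D.ps (S.map T.toEmbedding) (-(D.pr D.P.c0 (D.K.b g))) = 0 := by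
      have h5 := D.ps_add (S.map T.toEmbedding) (D.pr D.P.c0 (D.K.b g))
        (-(D.pr D.P.c0 (D.K.b g)))
      rw [add_neg_cancel, h3, zero_add] at h5
      rw [← h5]
      unfold Dat.ps
      simp
    rw [this, add_zero]
  calc ‖D.ps S D.xi‖ = ‖D.K.U g (D.ps S D.xi)‖ := (D.K.iso _ _).symm
    _ = ‖D.ps (S.map T.toEmbedding) (D.K.U g D.xi)‖ := by rw [D.ps_conj g θ T hg hT]
    _ ≤ ‖D.ps (S.map T.toEmbedding) D.xi‖ + ‖D.ps (S.map T.toEmbedding) (D.K.b g)‖ := by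
        rw [h4]
        exact norm_add_le _ _
    _ ≤ _ := by
        have := D.ps_le (S.map T.toEmbedding) (D.K.b g)
        linarith

/-- Characters that are non-trivial at `v`. -/
theorem Dat.ps_nontriv (v : V) (S : Finset C) (hS : ∀ c ∈ S, 1 ≤ ‖D.P.e c v - 1‖) :
    ‖D.ps S D.xi‖ ≤ ‖D.K.b (D.τ v)‖ := by
  have h1 : ∀ c, D.pr c (D.K.b (D.τ v)) = (D.P.e c v - 1) • D.pr c D.xi := by
    intro c
    have h2 : D.K.b (D.τ v) = D.K.U (D.τ v) D.xi - D.xi := by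
      rw [D.U_xi_tau]
      abel
    rw [h2, map_sub, D.pr_U, sub_smul, one_smul]
  have h2 : ‖D.ps S D.xi‖ ^ 2 ≤ ‖D.K.b (D.τ v)‖ ^ 2 := by
    calc ‖D.ps S D.xi‖ ^ 2 = ∑ c ∈ S, ‖D.pr c D.xi‖ ^ 2 := D.norm_ps _ _
      _ ≤ ∑ c ∈ S, ‖D.pr c (D.K.b (D.τ v))‖ ^ 2 := by
          apply Finset.sum_le_sum
          intro c hc
          apply pow_le_pow_left₀ (norm_nonneg _)
          rw [h1, norm_smul]
          have := hS c hc
          nlinarith [norm_nonneg (D.pr c D.xi)]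
      _ = ‖D.ps S (D.K.b (D.τ v))‖ ^ 2 := (D.norm_ps _ _).symm
      _ ≤ _ := pow_le_pow_left₀ (norm_nonneg _) (D.ps_le _ _) _
  exact (pow_le_pow_iff_left₀ (norm_nonneg _) (norm_nonneg _) (by norm_num)).1 h2

end

end Q88.NoHeat
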