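import Pool.Agent.Q88.Heat.Stmt

/-!
# The heat property for groups with the Haagerup property

The definitions `L2`, `dl`, `Op`, `ap`, `redC`, `hat`, `CF`, `ND0` are those of
`Pool.Agent.Q88.Heat.Stmt`: the Hilbert space `ℓ²(G)`, its basis vectors, the bounded operators,
application of an operator to a vector, the norm closure of the span of the operators `Λ g`, the
Fourier coefficients, the elements of the closure whose Fourier series converges as an unordered
sum in norm, and the negative definite functions `G → [0, ∞)` that vanish at the identity.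

* `IsReg Λ` : `Λ` is the left regular representation, `Λ g δ_h = δ_{gh}`.
* `IsHeatC Λ d t M` : `M` is a bounded linear map of the reduced C*-algebra into itself with
  `M(Λ g) = e^{-t d(g)} Λ g`.
* `Amenable G` : there is a Følner sequence of finite subsets.
* `Haagerup G` : there is a proper negative definite function.
-/

namespace Q88.HeatS

noncomputable section

variable {G : Type*} [Group G]

/-- `Λ` is the left regular representation of `G` on `ℓ²(G)`. -/
def IsReg (Λ : G → Op G) : Prop := ∀ g h, ap (Λ g) (dl h) = dl (g * h)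

/-- `M` is the heat map of `d` at time `t` on the reduced C*-algebra: a bounded linear map of the
reduced C*-algebra into itself with `M(Λ g) = e^{-t d(g)} Λ g`. (`M` is only looked at on
`redC Λ`.) -/
structure IsHeatC (Λ : G → Op G) (d : G → ℝ) (t : ℝ) (M : Op G → Op G) : Prop where
  maps : ∀ x ∈ redC Λ, M x ∈ redC Λ
  add : ∀ x ∈ redC Λ, ∀ y ∈ redC Λ, M (x + y) = M x + M y
  smul : ∀ (c : ℂ), ∀ x ∈ redC Λ, M (c • x) = c • M x
  bdd : ∃ K : ℝ, ∀ x ∈ redC Λ, ‖M x‖ ≤ K * ‖x‖
  lam : ∀ g, M (Λ g) = (Real.exp (-(t * d g)) : ℂ) • Λ g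

/-- `G` is amenable: it has a Følner sequence. -/
def Amenable (G : Type*) [Group G] : Prop :=
  ∃ F : ℕ → Finset G, (∀ n, (F n).Nonempty) ∧ ∀ g : G, ∀ ε : ℝ, 0 < ε → ∃ N, ∀ n ≥ N,
    ({x | x ∈ F n ∧ g * x ∉ F n}.ncard : ℝ) ≤ ε * (F n).card

/-- `G` has the Haagerup property: it has a proper negative definite function. -/
def Haagerup (G : Type*) [Group G] : Prop :=
  ∃ d : G → ℝ, ND0 d ∧ ∀ s, {g | d g ≤ s}.Finite

end

end Q88.HeatS
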